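import Mathlib
set_option autoImplicit false

open MvPolynomial

namespace Pool.Agent.Results.MP_f76180_mp.LocalCriterion

noncomputable section

/-- The noncommutative polynomial ring `ℂ⟨x_0, ..., x_{N-1}⟩`: the algebra of the free monoid
of words. -/
abbrev A (N : ℕ) := MonoidAlgebra ℂ (FreeMonoid (Fin N))

/-- A word (monomial) as an element of `A N`; in particular `wd [i]` is the generator `x_i`. -/
def wd {N : ℕ} (w : List (Fin N)) : A N := MonoidAlgebra.single (FreeMonoid.ofList w) 1

/-- The linear span `[A, A]` of the commutators; the quotient of `A N` by it is the space `T`. -/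
def comm (N : ℕ) : Submodule ℂ (A N) := Submodule.span ℂ {c | ∃ u v : A N, c = u * v - v * u}

/-- The gradient of a word with respect to `x_k`: the sum, over the occurrences of `x_k`, of the
word read cyclically from the letter after that occurrence. -/
def gradWord {N : ℕ} (k : Fin N) (w : List (Fin N)) : A N :=
  ∑ r : Fin w.length, if w.get r = k then wd (w.drop (r + 1) ++ w.take r) else 0

/-- The gradient `grad_{x_k}`, extended linearly from words. -/
def grad {N : ℕ} (k : Fin N) : A N →ₗ[ℂ] A N :=
  (Finsupp.linearCombination ℂ (fun w : FreeMonoid (Fin N) => gradWord k w.toList)) ∘ₗ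
    (MonoidAlgebra.coeffLinearEquiv ℂ : A N ≃ₗ[ℂ] _).toLinearMap

/-- The algebra of local operators: the unital algebra generated by the operators of left and of
right multiplication by the generators. -/
def localOps (N : ℕ) : Subalgebra ℂ (Module.End ℂ (A N)) :=
  Algebra.adjoin ℂ ({T | ∃ i, T = LinearMap.mulLeft ℂ (wd [i])} ∪
    {T | ∃ i, T = LinearMap.mulRight ℂ (wd [i])})

/-- The polynomial ring in the entries of `N` generic `m × m` matrices. -/
abbrev R (N m : ℕ) := MvPolynomial (Fin N × Fin m × Fin m) ℂ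

/-- The generic matrix `x_i`. -/
def gen {N : ℕ} (m : ℕ) (i : Fin N) : Matrix (Fin m) (Fin m) (R N m) :=
  Matrix.of fun a b => X (i, a, b)

/-- Evaluation of noncommutative polynomials at the generic matrices. -/
def ev {N : ℕ} (m : ℕ) : A N →ₐ[ℂ] Matrix (Fin m) (Fin m) (R N m) :=
  MonoidAlgebra.lift ℂ (Matrix (Fin m) (Fin m) (R N m)) (FreeMonoid (Fin N)) (FreeMonoid.lift (gen m))

/-- The function `tr P(x)` on tuples of `m × m` matrices. -/
def trEv {N : ℕ} (m : ℕ) (P : A N) : R N m := (ev m P).trace

/-- The action of `g ∈ GL_m` on polynomial functions: `x_i` is replaced by `g x_i g⁻¹`. -/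
def conj {N m : ℕ} (g : GL (Fin m) ℂ) : R N m →ₐ[ℂ] R N m :=
  MvPolynomial.aeval fun x : Fin N × Fin m × Fin m =>
    ∑ c : Fin m, ∑ d : Fin m, C ((g : Matrix (Fin m) (Fin m) ℂ) x.2.1 c) * X (x.1, c, d) *
      C (((g⁻¹ : GL (Fin m) ℂ) : Matrix (Fin m) (Fin m) ℂ) d x.2.2)

/-- A Poisson bracket on a commutative `ℂ`-algebra. -/
structure PBr (S : Type*) [CommRing S] [Algebra ℂ S] where
  br : S →ₗ[ℂ] S →ₗ[ℂ] S
  skew : ∀ f g, br f g = - br g f
  leibniz : ∀ f g h, br f (g * h) = br f g * h + g * br f h
  jacobi : ∀ f g h, br f (br g h) + br g (br h f) + br h (br f g) = 0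

/-- A trace Poisson bracket: a family of Poisson brackets `B m` on the functions of `N` matrices
of size `m`, invariant under simultaneous conjugation, and such that the bracket of two traces is
a trace `tr P₃` with `P₃` independent of `m` (conditions for `m ≥ 1`). -/
structure TraceFam (N : ℕ) where
  B : ∀ m : ℕ, PBr (R N m)
  conj_inv : ∀ m, 1 ≤ m → ∀ (g : GL (Fin m) ℂ) (p q : R N m),
    (B m).br (conj g p) (conj g q) = conj g ((B m).br p q)
  closed : ∀ P₁ P₂ : A N, ∃ P₃ : A N, ∀ m, 1 ≤ m →
    (B m).br (trEv m P₁) (trEv m P₂) = trEv m P₃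

/-- `Ind F P₁ P₂ P₃`: the class of `P₃` is the induced bracket of the classes of `P₁`, `P₂`. -/
def Ind {N : ℕ} (F : TraceFam N) (P₁ P₂ P₃ : A N) : Prop :=
  ∀ m, 1 ≤ m → (F.B m).br (trEv m P₁) (trEv m P₂) = trEv m P₃

variable {N m : ℕ}

lemma wd_mul (u v : List (Fin N)) : wd u * wd v = wd (u ++ v) := by
  simp [wd, MonoidAlgebra.single_mul_single]

lemma wd_nil : (wd [] : A N) = 1 := rfl

lemma ev_wd (w : List (Fin N)) : ev m (wd w) = (w.map (gen m)).prod := by
  simp [ev, wd, MonoidAlgebra.lift_single]

lemma ev_wd_cons (k : Fin N) (w : List (Fin N)) : ev m (wd (k :: w)) = gen m k * ev m (wd w) := by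
  simp [ev_wd]

lemma ev_wd_append (u v : List (Fin N)) : ev m (wd (u ++ v)) = ev m (wd u) * ev m (wd v) := by
  rw [← wd_mul, map_mul]

lemma grad_wd (k : Fin N) (w : List (Fin N)) : grad k (wd w) = gradWord k w := by
  simp [grad, wd]

lemma sum_coeff (P : A N) : P = P.coeff.sum (fun w c => c • wd w.toList) := by
  conv_lhs => rw [← MonoidAlgebra.sum_coeff_single P]
  refine Finsupp.sum_congr fun w _ => ?_
  simp [wd]

lemma mem_span_wd (P : A N) : P ∈ Submodule.span ℂ (Set.range (wd : List (Fin N) → A N)) := by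
  rw [sum_coeff P]
  refine Submodule.sum_mem _ fun w _ => Submodule.smul_mem _ _ (Submodule.subset_span ⟨_, rfl⟩)

lemma ind_wd {p : A N → Prop} (P : A N) (h1 : ∀ w, p (wd w)) (h2 : ∀ P Q, p P → p Q → p (P + Q))
    (h3 : ∀ (c : ℂ) P, p P → p (c • P)) : p P := by
  have := mem_span_wd P
  induction this using Submodule.span_induction with
  | mem x hx => obtain ⟨w, rfl⟩ := hx; exact h1 w
  | zero => simpa using h3 0 (wd []) (h1 _)
  | add x y _ _ hx hy => exact h2 _ _ hx hy
  | smul a x _ hx => exact h3 _ _ hx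

/-- derivations act on products of matrices -/
def mD (D : R N m →ₗ[ℂ] R N m) (M : Matrix (Fin m) (Fin m) (R N m)) : Matrix (Fin m) (Fin m) (R N m) :=
  Matrix.of fun a b => D (M a b)

lemma mD_mul (D : R N m →ₗ[ℂ] R N m) (hD : ∀ f g, D (f * g) = D f * g + f * D g)
    (M M' : Matrix (Fin m) (Fin m) (R N m)) : mD D (M * M') = mD D M * M' + M * mD D M' := by
  ext1 a b
  simp [mD, Matrix.mul_apply, map_sum, hD, Finset.sum_add_distrib]

lemma mD_ev (D : R N m →ₗ[ℂ] R N m) (hD : ∀ f g, D (f * g) = D f * g + f * D g) (w : List (Fin N)) :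
    mD D (ev m (wd w)) = ∑ r : Fin w.length,
      ev m (wd (w.take r)) * mD D (gen m (w.get r)) * ev m (wd (w.drop (r + 1))) := by
  have h1 : D 1 = 0 := by
    have := hD 1 1
    simpa using this
  induction w with
  | nil =>
    ext1 a b
    simp only [wd_nil, map_one, mD, Matrix.one_apply, Matrix.of_apply, List.length_nil,
      Finset.univ_eq_empty, Finset.sum_empty, Matrix.zero_apply]
    split_ifs <;> simp [h1]
  | cons k w ih =>
    have hs := Fin.sum_univ_succ (n := w.length) (fun r : Fin (w.length + 1) =>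
      ev m (wd ((k :: w).take r)) * mD D (gen m ((k :: w).get r)) * ev m (wd ((k :: w).drop (r + 1))))
    refine Eq.trans ?_ hs.symm
    rw [ev_wd_cons, mD_mul D hD, ih, Finset.mul_sum]
    refine congrArg₂ (· + ·) ?_ (Finset.sum_congr rfl fun r _ => ?_)
    · simp [wd_nil]
    · simp [ev_wd_cons, mul_assoc]

lemma D_trEv (D : R N m →ₗ[ℂ] R N m) (hD : ∀ f g, D (f * g) = D f * g + f * D g) (w : List (Fin N)) :
    D (trEv m (wd w)) = ∑ r : Fin w.length,
      (ev m (wd (w.drop (r + 1) ++ w.take r)) * mD D (gen m (w.get r))).trace := by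
  have h0 : D (trEv m (wd w)) = (mD D (ev m (wd w))).trace := by
    simp [trEv, Matrix.trace, mD, map_sum]
  rw [h0, mD_ev D hD, Matrix.trace_sum]
  refine Finset.sum_congr rfl fun r _ => ?_
  rw [Matrix.trace_mul_comm, ev_wd_append, mul_assoc]

/-- the word `w` with its letter number `r` removed, read cyclically after that letter -/
def cut (w : List (Fin N)) (r : ℕ) : List (Fin N) := w.drop (r + 1) ++ w.take r

lemma cut_length (w : List (Fin N)) (r : Fin w.length) : (cut w r).length + 1 = w.length := by
  have := r.2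
  simp [cut]; omega

lemma tr_mul_mD (D : R N m →ₗ[ℂ] R N m) (M : Matrix (Fin m) (Fin m) (R N m)) (i : Fin N) :
    (M * mD D (gen m i)).trace = ∑ b : Fin m, ∑ a : Fin m, M b a * D (X (i, a, b)) := by
  simp [Matrix.trace, Matrix.mul_apply, mD, gen]

lemma br_flip_leibniz (B : PBr (R N m)) (q f g : R N m) :
    B.br.flip q (f * g) = B.br.flip q f * g + f * B.br.flip q g := by
  simp only [LinearMap.flip_apply]
  rw [B.skew, B.leibniz, B.skew q f, B.skew q g]; ring

lemma br_tr (B : PBr (R N m)) (f g : List (Fin N)) :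
    B.br (trEv m (wd f)) (trEv m (wd g)) =
      ∑ r : Fin f.length, ∑ s : Fin g.length, ∑ b : Fin m, ∑ a : Fin m, ∑ d : Fin m, ∑ c : Fin m,
        ev m (wd (cut f r)) b a * (ev m (wd (cut g s)) d c *
          B.br (X (f.get r, a, b)) (X (g.get s, c, d))) := by
  have h1 : B.br (trEv m (wd f)) (trEv m (wd g)) = B.br.flip (trEv m (wd g)) (trEv m (wd f)) := rfl
  rw [h1, D_trEv _ (br_flip_leibniz B _)]
  refine Finset.sum_congr rfl fun r _ => ?_
  rw [show f.drop (r + 1) ++ f.take r = cut f r from rfl, tr_mul_mD, Finset.sum_comm (s := Finset.univ (α := Fin g.length))]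
  refine Finset.sum_congr rfl fun b _ => ?_
  rw [Finset.sum_comm (s := Finset.univ (α := Fin g.length))]
  refine Finset.sum_congr rfl fun a _ => ?_
  rw [LinearMap.flip_apply, D_trEv _ (B.leibniz _), Finset.mul_sum]
  refine Finset.sum_congr rfl fun s _ => ?_
  rw [show g.drop (s + 1) ++ g.take s = cut g s from rfl, tr_mul_mD, Finset.mul_sum]
  refine Finset.sum_congr rfl fun d _ => ?_
  rw [Finset.mul_sum]

/-- first vertex of a path (list of vertices with labels, end vertex `y`) -/
def hd (L : List (Fin m × Fin N)) (y : Fin m) : Fin m :=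
  match L with
  | [] => y
  | e :: _ => e.1

/-- monomial of a path -/
def pmon (L : List (Fin m × Fin N)) (y : Fin m) : (Fin N × Fin m × Fin m) →₀ ℕ :=
  match L with
  | [] => 0
  | e :: L' => Finsupp.single (e.2, e.1, hd L' y) 1 + pmon L' y

lemma hd_nil (y : Fin m) : hd ([] : List (Fin m × Fin N)) y = y := rfl
lemma hd_cons (e : Fin m × Fin N) (L : List (Fin m × Fin N)) (y : Fin m) : hd (e :: L) y = e.1 := rfl
lemma pmon_nil (y : Fin m) : pmon ([] : List (Fin m × Fin N)) y = 0 := rfl
lemma pmon_cons (e : Fin m × Fin N) (L : List (Fin m × Fin N)) (y : Fin m) :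
    pmon (e :: L) y = Finsupp.single (e.2, e.1, hd L y) 1 + pmon L y := rfl

lemma hd_append (L L' : List (Fin m × Fin N)) (y : Fin m) : hd (L ++ L') y = hd L (hd L' y) := by
  cases L <;> rfl

lemma pmon_append (L L' : List (Fin m × Fin N)) (y : Fin m) :
    pmon (L ++ L') y = pmon L (hd L' y) + pmon L' y := by
  induction L with
  | nil => simp [pmon_nil]
  | cons e L ih => rw [List.cons_append, pmon_cons, pmon_cons, ih, hd_append, add_assoc]

lemma pmon_apply_of_notMem (L : List (Fin m × Fin N)) (y : Fin m) (e : Fin N × Fin m × Fin m)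
    (h : e.2.1 ∉ L.map Prod.fst) : pmon L y e = 0 := by
  induction L with
  | nil => rfl
  | cons a L ih =>
    simp only [List.map_cons, List.mem_cons, not_or] at h
    rw [pmon_cons, Finsupp.add_apply, ih h.2, add_zero, Finsupp.single_apply, if_neg]
    rintro rfl
    exact h.1 rfl

/-- one step of the extraction -/
lemma coeff_step (M : (Fin N × Fin m × Fin m) →₀ ℕ) (e : Fin m × Fin N) (L : List (Fin m × Fin N))
    (y : Fin m) (hL : ((e :: L).map Prod.fst).Nodup)
    (hM : ∀ k z, M (k, e.1, z) = 0) (k : Fin N) (z : Fin m) (Q : R N m) :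
    coeff (M + pmon (e :: L) y) (X (k, e.1, z) * Q) =
      if k = e.2 ∧ z = hd L y then coeff (M + pmon L y) Q else 0 := by
  classical
  rw [List.map_cons, List.nodup_cons] at hL
  have h0 : ∀ k z, pmon L y (k, e.1, z) = 0 := fun k z => pmon_apply_of_notMem L y _ hL.1
  rw [coeff_X_mul', pmon_cons]
  by_cases h : k = e.2 ∧ z = hd L y
  · obtain ⟨rfl, rfl⟩ := h
    have hmem : (e.2, e.1, hd L y) ∈
        (M + (Finsupp.single (e.2, e.1, hd L y) 1 + pmon L y)).support := by simp
    rw [if_pos hmem, if_pos ⟨rfl, rfl⟩]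
    congr 1
    rw [add_left_comm, add_tsub_cancel_left]
  · rw [if_neg h, if_neg]
    rw [Finsupp.mem_support_iff, not_not]
    simp only [Finsupp.add_apply, hM, h0, add_zero, zero_add]
    rw [Finsupp.single_apply, if_neg]
    intro h2
    apply h
    simp only [Prod.mk.injEq] at h2
    exact ⟨h2.1.symm, h2.2.2.symm⟩

lemma coeff_no_out (M : (Fin N × Fin m × Fin m) →₀ ℕ) (b : Fin m) (hM : ∀ k z, M (k, b, z) = 0)
    (k : Fin N) (z : Fin m) (Q : R N m) : coeff M (X (k, b, z) * Q) = 0 := by
  rw [coeff_X_mul', if_neg]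
  simp [hM]

lemma coeff_ev_no_out (M : (Fin N × Fin m × Fin m) →₀ ℕ) (b a : Fin m) (hM : ∀ k z, M (k, b, z) = 0)
    (u : List (Fin N)) (hu : u ≠ []) (Q : R N m) : coeff M (ev m (wd u) b a * Q) = 0 := by
  obtain ⟨k, u, rfl⟩ := List.exists_cons_of_ne_nil hu
  rw [ev_wd_cons, Matrix.mul_apply, Finset.sum_mul, coeff_sum]
  refine Finset.sum_eq_zero fun z _ => ?_
  rw [mul_assoc]
  exact coeff_no_out M b hM k z _

/-- path extraction -/
lemma coeff_path (M : (Fin N × Fin m × Fin m) →₀ ℕ) (y a : Fin m) (u : List (Fin N)) :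
    ∀ (L : List (Fin m × Fin N)), (L.map Prod.fst).Nodup →
    (∀ k x z, x ∈ L.map Prod.fst ∨ x = y → M (k, x, z) = 0) → ∀ Q : R N m,
    coeff (M + pmon L y) (ev m (wd u) (hd L y) a * Q) =
      if (L.map Prod.snd).take u.length = u ∧ a = hd (L.drop u.length) y then
        coeff (M + pmon (L.drop u.length) y) Q else 0 := by
  classical
  induction u with
  | nil =>
    intro L hL hM Q
    simp only [wd_nil, map_one, List.length_nil, List.take_zero, List.drop_zero, true_and,
      Matrix.one_apply]
    by_cases h : a = hd L y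
    · rw [if_pos h, if_pos h.symm, one_mul]
    · rw [if_neg h, if_neg (fun h' => h h'.symm), zero_mul, coeff_zero]
  | cons k u ih =>
    intro L hL hM Q
    cases L with
    | nil =>
      rw [coeff_ev_no_out _ _ _ _ _ (by simp), if_neg]
      · simp
      · intro k z
        rw [pmon_nil, add_zero, hd_nil]
        exact hM k y z (Or.inr rfl)
    | cons e L =>
      rw [ev_wd_cons, Matrix.mul_apply, Finset.sum_mul, coeff_sum]
      have hstep : ∀ z : Fin m, coeff (M + pmon (e :: L) y)
          (gen m k (hd (e :: L) y) z * ev m (wd u) z a * Q) =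
          if k = e.2 ∧ z = hd L y then coeff (M + pmon L y) (ev m (wd u) z a * Q) else 0 := by
        intro z
        rw [mul_assoc]
        exact coeff_step M e L y hL (fun k z => hM k e.1 z (Or.inl (by simp))) k z _
      rw [Finset.sum_congr rfl fun z _ => hstep z]
      simp only [List.map_cons, List.length_cons, List.take_succ_cons, List.drop_succ_cons,
        List.cons.injEq]
      have hL' : (L.map Prod.fst).Nodup := by
        rw [List.map_cons, List.nodup_cons] at hL; exact hL.2
      by_cases hk : k = e.2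
      · subst hk
        simp only [true_and]
        rw [Finset.sum_ite_eq' Finset.univ (hd L y)]
        rw [if_pos (Finset.mem_univ _)]
        exact ih L hL' (fun k x z hx => hM k x z (by
          rcases hx with hx | hx
          · left; simp only [List.map_cons, List.mem_cons]; exact Or.inr hx
          · exact Or.inr hx)) Q
      · rw [Finset.sum_eq_zero, if_neg]
        · rintro ⟨⟨h, -⟩, -⟩; exact hk h.symm
        · intro z _
          rw [if_neg]; rintro ⟨h, -⟩; exact hk h

lemma pmon_eq_zero (L : List (Fin m × Fin N)) (y : Fin m) (h : pmon L y = 0) : L = [] := by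
  cases L with
  | nil => rfl
  | cons e L =>
    exfalso
    have := congrArg (fun f => f (e.2, e.1, hd L y)) h
    simp [pmon_cons] at this

lemma rot_pmon (La Lb : List (Fin m × Fin N)) (y : Fin m) (hy : hd (La ++ Lb) y = y) :
    pmon (Lb ++ La) (hd Lb y) = pmon (La ++ Lb) y := by
  have : hd La (hd Lb y) = y := by rw [← hd_append]; exact hy
  rw [pmon_append, pmon_append, this, add_comm]

lemma sum_verts (L : List (Fin m × Fin N)) (y : Fin m) (hL : (L.map Prod.fst).Nodup) (F : Fin m → ℂ)
    (hF : ∀ d, d ∉ L.map Prod.fst → F d = 0) :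
    ∑ d : Fin m, F d = ∑ p ∈ Finset.range L.length, F (hd (L.drop p) y) := by
  classical
  have h1 : ∑ d : Fin m, F d = ∑ d ∈ (L.map Prod.fst).toFinset, F d := by
    symm
    refine Finset.sum_subset (Finset.subset_univ _) fun d _ hd => hF d ?_
    simpa using hd
  rw [h1, List.sum_toFinset _ hL]
  clear h1 hF hL
  induction L with
  | nil => simp
  | cons e L ih =>
    rw [List.length_cons, Finset.sum_range_succ']
    simp only [List.map_cons, List.sum_cons, List.drop_succ_cons, List.drop_zero, hd_cons]
    rw [ih, add_comm]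

lemma coeff_closed (L : List (Fin m × Fin N)) (b : Fin m) (hL : (L.map Prod.fst).Nodup)
    (hb : hd L b = b) (w : List (Fin N)) :
    coeff (pmon L b) (ev m (wd w) b b) = if L.map Prod.snd = w then 1 else 0 := by
  classical
  have h := coeff_path 0 b b w L hL (fun _ _ _ _ => rfl) 1
  rw [zero_add, hb, mul_one, zero_add] at h
  rw [h]
  by_cases h1 : L.map Prod.snd = w
  · have h2 : w.length = L.length := by rw [← h1]; simp
    rw [if_pos h1, if_pos, h2, List.drop_length, pmon_nil, coeff_zero_one]
    rw [h2, List.drop_length]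
    refine ⟨?_, rfl⟩
    rw [← h1, ← List.length_map (f := Prod.snd) (as := L), List.take_length]
  · rw [if_neg h1]
    by_cases h3 : (L.map Prod.snd).take w.length = w ∧ b = hd (L.drop w.length) b
    · rw [if_pos h3, coeff_one, if_neg]
      intro h4
      have h5 := pmon_eq_zero _ _ h4.symm
      apply h1
      rw [List.drop_eq_nil_iff] at h5
      rw [← h3.1]
      exact (List.take_of_length_le (by simpa using h5)).symm
    · rw [if_neg h3]

lemma split_iff {α : Type*} (ℓ v u : List α) (l : ℕ) (hl : l ≤ v.length) (hl2 : l ≤ ℓ.length) :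
    ℓ = v.take l ++ (u ++ v.drop l) ↔
      (ℓ.drop l).take u.length = u ∧ v = ℓ.take l ++ (ℓ.drop l).drop u.length := by
  have h1 : (v.take l).length = l := by simp [hl]
  have h2 : (ℓ.take l).length = l := by simp [hl2]
  constructor
  · intro h
    have h3 : ℓ.drop l = u ++ v.drop l := by
      conv_lhs => rw [h]
      exact List.drop_left' h1
    have h4 : ℓ.take l = v.take l := by
      conv_lhs => rw [h]
      exact List.take_left' h1
    rw [h3, h4]
    refine ⟨List.take_left' rfl, ?_⟩
    rw [List.drop_left' rfl, List.take_append_drop]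
  · rintro ⟨h3, h4⟩
    have h5 : v.take l = ℓ.take l := by
      conv_lhs => rw [h4]
      exact List.take_left' h2
    have h6 : v.drop l = (ℓ.drop l).drop u.length := by
      conv_lhs => rw [h4]
      exact List.drop_left' h2
    have h7 : u ++ (ℓ.drop l).drop u.length = ℓ.drop l := by
      calc u ++ (ℓ.drop l).drop u.length
          = (ℓ.drop l).take u.length ++ (ℓ.drop l).drop u.length := by rw [h3]
        _ = ℓ.drop l := List.take_append_drop _ _
    rw [h5, h6, h7, List.take_append_drop]

/-- the main extraction lemma -/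
lemma key_extract (L : List (Fin m × Fin N)) (b : Fin m) (hL : (L.map Prod.fst).Nodup)
    (hb : hd L b = b) (u u' : List (Fin N)) (hu : u ≠ []) (hu' : u' ≠ []) (d₀ : ℕ)
    (hlen : L.length = u.length + u'.length + d₀)
    (Q : Fin m → Fin m → Fin m → R N m) (Cf : List (Fin N) → List (Fin N) → ℂ)
    (H : ∀ (L₃ L₅ : List (Fin m × Fin N)) (d : Fin m), L₃.length + L₅.length = d₀ →
      (L₃.map Prod.fst ++ d :: (L₅.map Prod.fst ++ [b])).Nodup →
      coeff (pmon L₃ d + pmon L₅ b) (Q (hd L₃ d) d (hd L₅ b)) =
        Cf (L₃.map Prod.snd) (L₅.map Prod.snd)) :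
    ∑ a : Fin m, ∑ d : Fin m, ∑ c : Fin m,
      coeff (pmon L b) (ev m (wd u) b a * (ev m (wd u') d c * Q a d c)) =
    ∑ l : Fin (d₀ + 1), ∑ v : List.Vector (Fin N) d₀, Cf (v.toList.take l) (v.toList.drop l) *
      coeff (pmon L b) (ev m (wd (u ++ (v.toList.take l ++ (u' ++ v.toList.drop l)))) b b) := by
  classical
  have hup : 0 < u.length := List.length_pos_of_ne_nil hu
  have hup' : 0 < u'.length := List.length_pos_of_ne_nil hu'
  have hstep : ∀ a d c : Fin m,
      coeff (pmon L b) (ev m (wd u) b a * (ev m (wd u') d c * Q a d c)) =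
      if (L.map Prod.snd).take u.length = u ∧ a = hd (L.drop u.length) b then
        coeff (pmon (L.drop u.length) b) (ev m (wd u') d c * Q a d c) else 0 := by
    intro a d c
    have h := coeff_path 0 b a u L hL (fun _ _ _ _ => rfl) (ev m (wd u') d c * Q a d c)
    rwa [zero_add, hb, zero_add] at h
  simp only [hstep, coeff_closed L b hL hb]
  by_cases hpre : (L.map Prod.snd).take u.length = u
  swap
  · have h1 : ∀ w : List (Fin N), L.map Prod.snd ≠ u ++ w := by
      intro w h
      apply hpre
      rw [h]; exact List.take_left' rfl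
    simp only [hpre, false_and, if_false, Finset.sum_const_zero, h1, mul_zero]
  simp only [hpre, true_and]
  set L₂ := L.drop u.length with hL₂
  have hsplit : L.map Prod.snd = u ++ L₂.map Prod.snd := by
    conv_lhs => rw [← List.take_append_drop u.length (L.map Prod.snd), hpre]
    rw [hL₂, List.map_drop]
  have hlen2 : L₂.length = u'.length + d₀ := by rw [hL₂, List.length_drop]; omega
  have hL2nd : (L₂.map Prod.fst).Nodup := by
    rw [hL₂, List.map_drop]; exact hL.sublist (List.drop_sublist _ _)
  have hbn : b ∉ L₂.map Prod.fst := by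
    cases L with
    | nil => simp at hlen; omega
    | cons e L =>
      rw [hd_cons] at hb
      subst hb
      rw [List.map_cons, List.nodup_cons] at hL
      intro h
      apply hL.1
      rw [hL₂] at h
      obtain ⟨k, hk⟩ := Nat.exists_eq_add_of_lt hup
      rw [show u.length = k + 1 by omega, List.drop_succ_cons, List.map_drop] at h
      exact List.mem_of_mem_drop h
  clear_value L₂
  have hLHS : ∑ a : Fin m, ∑ d : Fin m, ∑ c : Fin m,
      (if a = hd L₂ b then coeff (pmon L₂ b) (ev m (wd u') d c * Q a d c) else 0) =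
      ∑ d : Fin m, ∑ c : Fin m, coeff (pmon L₂ b) (ev m (wd u') d c * Q (hd L₂ b) d c) := by
    rw [Finset.sum_eq_single (hd L₂ b)]
    · simp
    · intro a _ ha; simp [ha]
    · simp
  rw [hLHS, sum_verts L₂ b hL2nd]
  swap
  · intro d hd'
    refine Finset.sum_eq_zero fun c _ => coeff_ev_no_out _ _ _ ?_ _ hu' _
    intro k z
    exact pmon_apply_of_notMem _ _ _ hd'
  set ℓ := L₂.map Prod.snd with hℓ
  clear_value ℓ
  have hF : ∀ p ∈ Finset.range L₂.length,
      (∑ c : Fin m, coeff (pmon L₂ b)
        (ev m (wd u') (hd (L₂.drop p) b) c * Q (hd L₂ b) (hd (L₂.drop p) b) c)) =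
      if (ℓ.drop p).take u'.length = u' then
        Cf (ℓ.take p) ((ℓ.drop p).drop u'.length) else 0 := by
    intro p hp
    rw [Finset.mem_range] at hp
    set d := hd (L₂.drop p) b with hd_def
    have hL2s : L₂ = L₂.take p ++ L₂.drop p := (List.take_append_drop p L₂).symm
    have hpm : pmon L₂ b = pmon (L₂.take p) d + pmon (L₂.drop p) b := by
      conv_lhs => rw [hL2s]
      rw [pmon_append]
    have hhd : hd L₂ b = hd (L₂.take p) d := by
      conv_lhs => rw [hL2s]
      rw [hd_append]
    have hnd34 : ((L₂.take p).map Prod.fst ++ (L₂.drop p).map Prod.fst).Nodup := by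
      rw [← List.map_append, List.take_append_drop]; exact hL2nd
    have hM : ∀ k x z, x ∈ (L₂.drop p).map Prod.fst ∨ x = b → pmon (L₂.take p) d (k, x, z) = 0 := by
      intro k x z hx
      apply pmon_apply_of_notMem
      intro hx2
      rcases hx with hx | hx
      · exact (List.disjoint_of_nodup_append hnd34) hx2 hx
      · subst hx
        apply hbn
        rw [List.map_take] at hx2
        exact List.mem_of_mem_take hx2
    have hstep2 : ∀ c : Fin m, coeff (pmon L₂ b) (ev m (wd u') d c * Q (hd L₂ b) d c) =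
        if (ℓ.drop p).take u'.length = u' ∧ c = hd ((L₂.drop p).drop u'.length) b then
          coeff (pmon (L₂.take p) d + pmon ((L₂.drop p).drop u'.length) b) (Q (hd L₂ b) d c)
        else 0 := by
      intro c
      have h := coeff_path (pmon (L₂.take p) d) b c u' (L₂.drop p)
        (List.Nodup.of_append_right hnd34) hM (Q (hd L₂ b) d c)
      rw [← hpm] at h
      rw [hℓ, ← List.map_drop]
      exact h
    rw [Finset.sum_congr rfl fun c _ => hstep2 c]
    by_cases hc : (ℓ.drop p).take u'.length = u'
    swap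
    · simp [hc]
    simp only [hc, true_and, if_true]
    rw [Finset.sum_ite_eq' Finset.univ, if_pos (Finset.mem_univ _)]
    have hle : u'.length ≤ L₂.length - p := by
      have := congrArg List.length hc
      rw [List.length_take, List.length_drop, hℓ, List.length_map] at this
      omega
    rw [hhd, H]
    · simp only [hℓ, List.map_take, List.map_drop]
    · simp only [List.length_take, List.length_drop]; omega
    · -- nodup
      have hne : L₂.drop p ≠ [] := by
        intro h0
        rw [List.drop_eq_nil_iff] at h0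
        omega
      obtain ⟨e, L₄, h4⟩ := List.exists_cons_of_ne_nil hne
      have hde : d = e.1 := by rw [hd_def, h4, hd_cons]
      obtain ⟨k, hk⟩ := Nat.exists_eq_add_of_lt hup'
      have h5 : (L₂.drop p).drop u'.length = L₄.drop k := by
        rw [h4, show u'.length = k + 1 by omega, List.drop_succ_cons]
      rw [h5]
      rw [h4, List.map_cons] at hnd34
      have hsub : List.Sublist ((L₂.take p).map Prod.fst ++ d :: (L₄.drop k).map Prod.fst)
          ((L₂.take p).map Prod.fst ++ e.1 :: L₄.map Prod.fst) := by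
        refine List.Sublist.append (List.Sublist.refl _) ?_
        rw [hde]
        refine List.Sublist.cons_cons _ ?_
        rw [List.map_drop]
        exact List.drop_sublist _ _
      have hnd5 := hnd34.sublist hsub
      rw [show (L₂.take p).map Prod.fst ++ d :: ((L₄.drop k).map Prod.fst ++ [b]) =
        ((L₂.take p).map Prod.fst ++ d :: (L₄.drop k).map Prod.fst) ++ [b] by simp]
      rw [List.nodup_append]
      refine ⟨hnd5, by simp, ?_⟩
      intro x hx y hy hxy
      rw [List.mem_singleton] at hy
      subst hy; subst hxy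
      apply hbn
      have h6 := hsub.subset hx
      have h7 : (L₂.take p).map Prod.fst ++ e.1 :: L₄.map Prod.fst = L₂.map Prod.fst := by
        conv_rhs => rw [hL2s, h4]
        simp
      rwa [h7] at h6
  rw [Finset.sum_congr rfl hF]
  have hℓlen : ℓ.length = u'.length + d₀ := by rw [hℓ, List.length_map, hlen2]
  -- cut the range
  have hcut : ∑ p ∈ Finset.range L₂.length, (if (ℓ.drop p).take u'.length = u' then
        Cf (ℓ.take p) ((ℓ.drop p).drop u'.length) else 0) =
      ∑ p ∈ Finset.range (d₀ + 1), (if (ℓ.drop p).take u'.length = u' then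
        Cf (ℓ.take p) ((ℓ.drop p).drop u'.length) else 0) := by
    symm
    refine Finset.sum_subset ?_ ?_
    · intro x hx; rw [Finset.mem_range] at *; omega
    · intro p hp hp2
      rw [Finset.mem_range] at hp hp2
      rw [if_neg]
      intro h
      have := congrArg List.length h
      rw [List.length_take, List.length_drop] at this
      omega
  rw [hcut, Finset.sum_range]
  refine Finset.sum_congr rfl fun l _ => ?_
  have hl := l.2
  have hiff : ∀ v : List.Vector (Fin N) d₀,
      (L.map Prod.snd = u ++ (v.toList.take l ++ (u' ++ v.toList.drop l))) ↔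
      ((ℓ.drop l).take u'.length = u' ∧ v.toList = ℓ.take l ++ (ℓ.drop l).drop u'.length) := by
    intro v
    rw [hsplit, List.append_cancel_left_eq]
    exact split_iff ℓ v.toList u' l (by rw [v.toList_length]; omega) (by omega)
  simp only [hiff]
  by_cases hc : (ℓ.drop l).take u'.length = u'
  · have hle : u'.length ≤ ℓ.length - l := by
      have := congrArg List.length hc
      rw [List.length_take, List.length_drop] at this
      omega
    have hv0 : (ℓ.take l ++ (ℓ.drop l).drop u'.length).length = d₀ := by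
      rw [List.length_append, List.length_take, List.length_drop, List.length_drop]; omega
    obtain ⟨v0, hv0'⟩ : ∃ v : List.Vector (Fin N) d₀,
        v.toList = ℓ.take l ++ (ℓ.drop l).drop u'.length := ⟨⟨_, hv0⟩, rfl⟩
    rw [if_pos hc]
    symm
    have hs := Fintype.sum_eq_single (f := fun v : List.Vector (Fin N) d₀ =>
      Cf (v.toList.take l) (v.toList.drop l) *
        (if (ℓ.drop l).take u'.length = u' ∧ v.toList = ℓ.take l ++ (ℓ.drop l).drop u'.length
          then (1 : ℂ) else 0)) v0 (by
        intro v hv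
        have : ¬ (v.toList = ℓ.take l ++ (ℓ.drop l).drop u'.length) := by
          intro h
          exact hv (List.Vector.toList_injective (h.trans hv0'.symm))
        simp only [this, and_false, if_false, mul_zero])
    refine Eq.trans hs ?_
    have h2 : (ℓ.take l).length = l := by rw [List.length_take]; omega
    simp only [hv0', hc, true_and, if_true, mul_one]
    rw [List.take_left' h2, List.drop_left' h2]
  · simp only [hc, false_and, if_false, mul_zero, Finset.sum_const_zero]

lemma exists_perm_list (V V' : List (Fin m)) (h : V.Nodup) (h' : V'.Nodup) (hl : V.length = V'.length) :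
    ∃ σ : Equiv.Perm (Fin m), V.map σ = V' := by
  classical
  obtain ⟨n, hn⟩ : ∃ n, n = V.length := ⟨_, rfl⟩
  let f : Fin n → Fin m := fun i => V.get (i.cast hn)
  let f' : Fin n → Fin m := fun i => V'.get (i.cast (hn.trans hl))
  have hf : Function.Injective f := by
    intro i j hij
    have := List.nodup_iff_injective_get.1 h hij
    simpa using this
  have hf' : Function.Injective f' := by
    intro i j hij
    have := List.nodup_iff_injective_get.1 h' hij
    simpa using this
  let e : {x // x ∈ Set.range f} ≃ {x // x ∈ Set.range f'} :=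
    (Equiv.ofInjective f hf).symm.trans (Equiv.ofInjective f' hf')
  refine ⟨e.extendSubtype, ?_⟩
  have key : ∀ i : Fin n, e.extendSubtype (f i) = f' i := by
    intro i
    rw [Equiv.extendSubtype_apply_of_mem e (f i) ⟨i, rfl⟩]
    have h1 : (⟨f i, ⟨i, rfl⟩⟩ : {x // x ∈ Set.range f}) = Equiv.ofInjective f hf i := rfl
    rw [h1]
    simp only [e, Equiv.trans_apply]
    rw [Equiv.symm_apply_apply]
    rfl
  apply List.ext_getElem
  · simpa using hl
  · intro i h1 h2
    rw [List.getElem_map]
    have := key ⟨i, by simpa [hn] using h1⟩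
    simpa [f, f'] using this

lemma list_eq_of_maps {α β : Type*} (L L' : List (α × β)) (h1 : L.map Prod.fst = L'.map Prod.fst)
    (h2 : L.map Prod.snd = L'.map Prod.snd) : L = L' := by
  induction L generalizing L' with
  | nil => cases L' with
    | nil => rfl
    | cons e L' => simp at h1
  | cons e L ih => cases L' with
    | nil => simp at h1
    | cons e' L' =>
      simp only [List.map_cons, List.cons.injEq] at h1 h2
      rw [ih L' h1.2 h2.2, Prod.ext h1.1 h2.1]

/-- simultaneous relabelling of the matrix entries by a permutation -/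
def sh (σ : Equiv.Perm (Fin m)) (x : Fin N × Fin m × Fin m) : Fin N × Fin m × Fin m :=
  (x.1, σ x.2.1, σ x.2.2)

lemma sh_inj (σ : Equiv.Perm (Fin m)) : Function.Injective (sh (N := N) σ) := by
  rintro ⟨i, a, b⟩ ⟨j, c, d⟩ h
  simp only [sh, Prod.mk.injEq] at h
  obtain ⟨rfl, h2, h3⟩ := h
  rw [σ.injective h2, σ.injective h3]

lemma exists_conj (σ : Equiv.Perm (Fin m)) :
    ∃ g : GL (Fin m) ℂ, (conj g : R N m →ₐ[ℂ] R N m) = rename (sh σ) := by
  classical
  let M : Equiv.Perm (Fin m) → Matrix (Fin m) (Fin m) ℂ := fun τ =>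
    Matrix.of fun a c => if τ a = c then 1 else 0
  have hM : ∀ τ : Equiv.Perm (Fin m), M τ * M τ⁻¹ = 1 := by
    intro τ
    ext a b
    simp only [M, Matrix.mul_apply, Matrix.of_apply, Matrix.one_apply, mul_ite, mul_one, mul_zero]
    rw [Finset.sum_eq_single (τ a)]
    · simp
    · intro c _ hc
      rw [if_neg (fun h : τ a = c => hc h.symm)]
      simp
    · simp
  let g : GL (Fin m) ℂ := ⟨M σ, M σ⁻¹, hM σ, by have := hM σ⁻¹; rwa [inv_inv] at this⟩
  refine ⟨g, ?_⟩
  apply MvPolynomial.algHom_ext
  rintro ⟨i, a, b⟩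
  have h1 : (g : Matrix (Fin m) (Fin m) ℂ) = M σ := rfl
  have h2 : ((g⁻¹ : GL (Fin m) ℂ) : Matrix (Fin m) (Fin m) ℂ) = M σ⁻¹ := rfl
  rw [conj, aeval_X, rename_X, h1, h2]
  simp only [M, Matrix.of_apply, sh]
  rw [Finset.sum_eq_single (σ a), Finset.sum_eq_single (σ b)]
  · simp
  · intro d _ hd'
    rw [if_neg (fun h : σ⁻¹ d = b => hd' (by rw [← h]; simp))]
    simp
  · simp
  · intro c _ hc
    refine Finset.sum_eq_zero fun d _ => ?_
    rw [if_neg (fun h : σ a = c => hc h.symm)]
    simp
  · simp

lemma perm_inv (F : TraceFam N) (hm : 1 ≤ m) (σ : Equiv.Perm (Fin m)) (p q : R N m) :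
    (F.B m).br (rename (sh σ) p) (rename (sh σ) q) = rename (sh σ) ((F.B m).br p q) := by
  obtain ⟨g, hg⟩ := exists_conj (N := N) σ
  rw [← hg]
  exact F.conj_inv m hm g p q

/-- relabel the vertices of a path -/
def shL (σ : Equiv.Perm (Fin m)) (L : List (Fin m × Fin N)) : List (Fin m × Fin N) :=
  L.map fun e => (σ e.1, e.2)

lemma hd_shL (σ : Equiv.Perm (Fin m)) (L : List (Fin m × Fin N)) (y : Fin m) :
    hd (shL σ L) (σ y) = σ (hd L y) := by
  cases L <;> rfl

lemma pmon_shL (σ : Equiv.Perm (Fin m)) (L : List (Fin m × Fin N)) (y : Fin m) :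
    pmon (shL σ L) (σ y) = (pmon L y).mapDomain (sh σ) := by
  induction L with
  | nil => simp [shL, pmon_nil]
  | cons e L ih =>
    rw [pmon_cons, Finsupp.mapDomain_add, Finsupp.mapDomain_single, ← ih]
    have : shL σ (e :: L) = (σ e.1, e.2) :: shL σ L := rfl
    rw [this, pmon_cons, hd_shL]
    rfl

/-- the configuration is nondegenerate -/
def Good (L₃ : List (Fin m × Fin N)) (d : Fin m) (L₅ : List (Fin m × Fin N)) (b : Fin m) : Prop :=
  (L₃.map Prod.fst ++ d :: (L₅.map Prod.fst ++ [b])).Nodup

/-- the coefficient read off from a configuration -/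
def cf (B : PBr (R N m)) (i j : Fin N) (L₃ : List (Fin m × Fin N)) (d : Fin m)
    (L₅ : List (Fin m × Fin N)) (b : Fin m) : ℂ :=
  coeff (pmon L₃ d + pmon L₅ b) (B.br (X (i, hd L₃ d, b)) (X (j, hd L₅ b, d)))

lemma cf_indep (F : TraceFam N) (hm : 1 ≤ m) (i j : Fin N) (L₃ L₃' L₅ L₅' : List (Fin m × Fin N))
    (d d' b b' : Fin m) (h : Good L₃ d L₅ b) (h' : Good L₃' d' L₅' b')
    (h3 : L₃.map Prod.snd = L₃'.map Prod.snd) (h5 : L₅.map Prod.snd = L₅'.map Prod.snd) :
    cf (F.B m) i j L₃ d L₅ b = cf (F.B m) i j L₃' d' L₅' b' := by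
  have hl3 : L₃.length = L₃'.length := by
    have := congrArg List.length h3; simpa using this
  have hl5 : L₅.length = L₅'.length := by
    have := congrArg List.length h5; simpa using this
  obtain ⟨σ, hσ⟩ := exists_perm_list _ _ h h' (by simp [hl3, hl5])
  rw [List.map_append, List.map_cons, List.map_append, List.map_cons, List.map_nil] at hσ
  have e1 := List.append_inj hσ (by simp [hl3])
  obtain ⟨e1a, e1b⟩ := e1
  rw [List.cons.injEq] at e1b
  obtain ⟨e2, e3⟩ := e1b
  have e4 := List.append_inj e3 (by simp [hl5])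
  obtain ⟨e4a, e4b⟩ := e4
  rw [List.cons.injEq] at e4b
  obtain ⟨e5, -⟩ := e4b
  have hL3 : L₃' = shL σ L₃ := by
    apply list_eq_of_maps
    · rw [← e1a]; simp [shL]
    · rw [← h3]; simp [shL]
  have hL5 : L₅' = shL σ L₅ := by
    apply list_eq_of_maps
    · rw [← e4a]; simp [shL]
    · rw [← h5]; simp [shL]
  subst hL3; subst hL5; subst e2; subst e5
  unfold cf
  rw [hd_shL, hd_shL, pmon_shL, pmon_shL, ← Finsupp.mapDomain_add]
  have hx1 : (X (i, σ (hd L₃ d), σ b) : R N m) = rename (sh σ) (X (i, hd L₃ d, b)) := by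
    rw [rename_X]; rfl
  have hx2 : (X (j, σ (hd L₅ b), σ d) : R N m) = rename (sh σ) (X (j, hd L₅ b, d)) := by
    rw [rename_X]; rfl
  rw [hx1, hx2, perm_inv F hm, coeff_rename_mapDomain _ (sh_inj σ)]

open Classical in
/-- the structure constants of the bracket on `m × m` matrices -/
def cm (B : PBr (R N m)) (i j : Fin N) (v₁ v₂ : List (Fin N)) : ℂ :=
  if h : ∃ t : (List (Fin m × Fin N) × Fin m) × (List (Fin m × Fin N) × Fin m),
      Good t.1.1 t.1.2 t.2.1 t.2.2 ∧ t.1.1.map Prod.snd = v₁ ∧ t.2.1.map Prod.snd = v₂ then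
    cf B i j h.choose.1.1 h.choose.1.2 h.choose.2.1 h.choose.2.2
  else 0

lemma cf_eq_cm (F : TraceFam N) (hm : 1 ≤ m) (i j : Fin N) (L₃ L₅ : List (Fin m × Fin N))
    (d b : Fin m) (h : Good L₃ d L₅ b) :
    cf (F.B m) i j L₃ d L₅ b = cm (F.B m) i j (L₃.map Prod.snd) (L₅.map Prod.snd) := by
  have hex : ∃ t : (List (Fin m × Fin N) × Fin m) × (List (Fin m × Fin N) × Fin m),
      Good t.1.1 t.1.2 t.2.1 t.2.2 ∧ t.1.1.map Prod.snd = L₃.map Prod.snd ∧
        t.2.1.map Prod.snd = L₅.map Prod.snd := ⟨((L₃, d), (L₅, b)), h, rfl, rfl⟩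
  rw [cm, dif_pos hex]
  obtain ⟨h1, h2, h3⟩ := hex.choose_spec
  exact cf_indep F hm i j _ _ _ _ _ _ _ _ h h1 h2.symm h3.symm

lemma good_swap {L₃ L₅ : List (Fin m × Fin N)} {d b : Fin m} (h : Good L₃ d L₅ b) :
    Good L₅ b L₃ d := by
  unfold Good at *
  refine (List.Perm.nodup_iff ?_).1 h
  simp only [List.perm_iff_count, List.count_append, List.count_cons, List.count_nil]
  intro a; omega

lemma cf_skew (B : PBr (R N m)) (i j : Fin N) (L₃ L₅ : List (Fin m × Fin N)) (d b : Fin m) :
    cf B i j L₃ d L₅ b = - cf B j i L₅ b L₃ d := by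
  unfold cf
  rw [B.skew, coeff_neg, add_comm]

lemma cm_skew (F : TraceFam N) (hm : 1 ≤ m) (i j : Fin N) (v₁ v₂ : List (Fin N)) :
    cm (F.B m) i j v₁ v₂ = - cm (F.B m) j i v₂ v₁ := by
  by_cases hex : ∃ t : (List (Fin m × Fin N) × Fin m) × (List (Fin m × Fin N) × Fin m),
      Good t.1.1 t.1.2 t.2.1 t.2.2 ∧ t.1.1.map Prod.snd = v₁ ∧ t.2.1.map Prod.snd = v₂
  · obtain ⟨⟨⟨L₃, d⟩, ⟨L₅, b⟩⟩, h1, h2, h3⟩ := hex
    simp only at h1 h2 h3
    rw [← h2, ← h3, ← cf_eq_cm F hm i j L₃ L₅ d b h1, ← cf_eq_cm F hm j i L₅ L₃ b d (good_swap h1)]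
    exact cf_skew _ _ _ _ _ _ _
  · have hex2 : ¬ ∃ t : (List (Fin m × Fin N) × Fin m) × (List (Fin m × Fin N) × Fin m),
        Good t.1.1 t.1.2 t.2.1 t.2.2 ∧ t.1.1.map Prod.snd = v₂ ∧ t.2.1.map Prod.snd = v₁ := by
      rintro ⟨⟨⟨L₃, d⟩, ⟨L₅, b⟩⟩, h1, h2, h3⟩
      exact hex ⟨((L₅, b), (L₃, d)), good_swap h1, h3, h2⟩
    rw [cm, cm, dif_neg hex, dif_neg hex2, neg_zero]

/-- The linear map on `A N` with given values on words. -/
def onWords {V : Type*} [AddCommGroup V] [Module ℂ V] (f : List (Fin N) → V) : A N →ₗ[ℂ] V :=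
  (Finsupp.linearCombination ℂ (fun w : FreeMonoid (Fin N) => f w.toList)) ∘ₗ
    (MonoidAlgebra.coeffLinearEquiv ℂ : A N ≃ₗ[ℂ] _).toLinearMap

lemma onWords_wd {V : Type*} [AddCommGroup V] [Module ℂ V] (f : List (Fin N) → V) (w : List (Fin N)) :
    onWords f (wd w) = f w := by
  simp [onWords, wd]

lemma ext_wd {V : Type*} [AddCommGroup V] [Module ℂ V] {f g : A N →ₗ[ℂ] V}
    (h : ∀ w, f (wd w) = g (wd w)) : f = g := by
  apply LinearMap.ext
  intro P
  induction P using ind_wd with
  | h1 w => exact h w
  | h2 P Q h1 h2 => rw [map_add, map_add, h1, h2]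
  | h3 c P h1 => rw [map_smul, map_smul, h1]

/-- coefficient of a word -/
def co (w : List (Fin N)) : A N →ₗ[ℂ] ℂ := onWords fun u => if u = w then 1 else 0

lemma co_wd (w u : List (Fin N)) : co w (wd u) = if u = w then 1 else 0 := by
  rw [co, onWords_wd]

lemma eq_zero_of_co (P : A N) (h : ∀ w, co w P = 0) : P = 0 := by
  have h1 : ∀ w, co w P = P.coeff (FreeMonoid.ofList w) := by
    intro w
    clear h
    induction P using ind_wd with
    | h1 u =>
      classical
      rw [co_wd, wd, MonoidAlgebra.coeff_single, Finsupp.single_apply]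
      simp only [EmbeddingLike.apply_eq_iff_eq]
    | h2 P Q h1 h2 => simp [h1, h2]
    | h3 c P h1 => simp [h1]
  rw [← MonoidAlgebra.coeff_eq_zero]
  ext w
  have := h1 w.toList
  rw [h] at this
  simpa using this.symm

/-- The homogeneous component of degree `n`. -/
def comp (n : ℕ) : A N →ₗ[ℂ] A N := onWords fun w => if w.length = n then wd w else 0

lemma comp_wd (n : ℕ) (w : List (Fin N)) : comp n (wd w) = if w.length = n then wd w else 0 := by
  rw [comp, onWords_wd]

lemma co_comp (n : ℕ) (u : List (Fin N)) (P : A N) :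
    co u (comp n P) = if u.length = n then co u P else 0 := by
  induction P using ind_wd with
  | h1 w =>
    rw [comp_wd]
    by_cases h : w = u
    · subst h; by_cases h2 : w.length = n <;> simp [h2, co_wd]
    · by_cases h2 : w.length = n
      · simp [h2, co_wd, h]
      · simp [h2, co_wd, h]
  | h2 P Q h1 h2 =>
    rw [map_add, map_add, map_add, h1, h2]; split_ifs <;> simp
  | h3 c P h1 =>
    rw [map_smul, map_smul, map_smul, h1]; split_ifs <;> simp

lemma comp_comp (n : ℕ) (P : A N) : comp n (comp n P) = comp n P := by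
  induction P using ind_wd with
  | h1 w =>
    rw [comp_wd]; split_ifs with h <;> simp [comp_wd, h]
  | h2 P Q h1 h2 =>
    simp [h1, h2]
  | h3 c P h1 =>
    simp [h1]

lemma mul_sub_mem (u v : A N) : u * v - v * u ∈ comm N := Submodule.subset_span ⟨u, v, rfl⟩

lemma rotate_mem (w : List (Fin N)) (p : ℕ) : wd w - wd (w.rotate p) ∈ comm N := by
  induction p with
  | zero => simp
  | succ p ih =>
    have h : wd (w.rotate p) - wd (w.rotate (p + 1)) ∈ comm N := by
      rw [← List.rotate_rotate]
      generalize w.rotate p = u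
      cases u with
      | nil => simp
      | cons k u =>
        have := mul_sub_mem (wd [k]) (wd u)
        rw [wd_mul, wd_mul] at this
        simpa using this
    have := Submodule.add_mem _ ih h
    simpa using this

/-- sum of all rotations -/
def rots : A N →ₗ[ℂ] A N := onWords fun w => ∑ p ∈ Finset.range w.length, wd (w.rotate p)

/-- multiplication of a word by its length -/
def lenMul : A N →ₗ[ℂ] A N := onWords fun w => (w.length : ℂ) • wd w

lemma lenMul_sub_rots (P : A N) : lenMul P - rots P ∈ comm N := by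
  induction P using ind_wd with
  | h1 w =>
    rw [lenMul, rots, onWords_wd, onWords_wd]
    have : (w.length : ℂ) • wd w - ∑ p ∈ Finset.range w.length, wd (w.rotate p) =
        ∑ p ∈ Finset.range w.length, (wd w - wd (w.rotate p)) := by
      rw [Finset.sum_sub_distrib, Finset.sum_const, Finset.card_range, Nat.cast_smul_eq_nsmul]
    rw [this]
    exact Submodule.sum_mem _ fun p _ => rotate_mem w p
  | h2 P Q h1 h2 =>
    have := Submodule.add_mem _ h1 h2
    rw [map_add, map_add]
    convert this using 1; abel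
  | h3 c P h1 =>
    have := Submodule.smul_mem _ c h1
    rw [map_smul, map_smul, ← smul_sub]; exact this

lemma lenMul_of_hom (n : ℕ) (P : A N) : lenMul (comp n P) = (n : ℂ) • comp n P := by
  induction P using ind_wd with
  | h1 w =>
    rw [comp_wd]; split_ifs with h
    · rw [lenMul, onWords_wd, h]
    · simp
  | h2 P Q h1 h2 =>
    simp [h1, h2]
  | h3 c P h1 =>
    simp only [map_smul, h1]; rw [smul_comm]

lemma co_rots (u : List (Fin N)) (P : A N) :
    co u (rots P) = ∑ p ∈ Finset.range u.length, co (u.rotate p) P := by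
  induction P using ind_wd with
  | h1 w =>
    rw [rots, onWords_wd, map_sum]
    simp only [co_wd]
    by_cases hl : w.length = u.length
    · rw [hl]
      rcases Nat.eq_zero_or_pos u.length with h0 | h0
      · simp [h0]
      -- sum over p of [w.rotate p = u] = sum over p of [w = u.rotate p]
      have h1 : ∀ p ∈ Finset.range u.length,
          (if w.rotate p = u then (1 : ℂ) else 0) =
            if w = u.rotate ((u.length - p) % u.length) then 1 else 0 := by
        intro p hp
        rw [Finset.mem_range] at hp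
        have : w.rotate p = u ↔ w = u.rotate ((u.length - p) % u.length) := by
          rw [List.rotate_mod]
          constructor
          · intro h
            rw [← h, List.rotate_rotate, List.length_rotate, hl]
            rw [show p + (u.length - p) = u.length by omega, ← hl, List.rotate_length]
          · intro h
            rw [h, List.rotate_rotate, show u.length - p + p = u.length by omega,
              List.rotate_length]
        simp only [this]
      rw [Finset.sum_congr rfl h1]
      refine Finset.sum_nbij' (fun p => (u.length - p) % u.length)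
        (fun p => (u.length - p) % u.length) ?_ ?_ ?_ ?_ ?_
      · intro p _; simp [Nat.mod_lt _ h0]
      · intro p _; simp [Nat.mod_lt _ h0]
      · intro p hp
        rw [Finset.mem_range] at hp
        rcases Nat.eq_zero_or_pos p with h2 | h2
        · subst h2; simp
        · rw [Nat.mod_eq_of_lt (show u.length - p < u.length by omega),
            show u.length - (u.length - p) = p by omega, Nat.mod_eq_of_lt hp]
      · intro p hp
        rw [Finset.mem_range] at hp
        rcases Nat.eq_zero_or_pos p with h2 | h2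
        · subst h2; simp
        · rw [Nat.mod_eq_of_lt (show u.length - p < u.length by omega),
            show u.length - (u.length - p) = p by omega, Nat.mod_eq_of_lt hp]
      · intro p _; rfl
    · rw [Finset.sum_eq_zero, Finset.sum_eq_zero]
      · intro p _
        rw [if_neg]
        intro h
        apply hl; rw [h, List.length_rotate]
      · intro p _
        rw [if_neg]
        intro h
        apply hl; rw [← h, List.length_rotate]
  | h2 P Q h1 h2 =>
    simp only [map_add, h1, h2, Finset.sum_add_distrib]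
  | h3 c P h1 =>
    simp only [map_smul, h1, Finset.smul_sum]

/-- a homogeneous element with vanishing cyclic sums is a sum of commutators -/
lemma mem_comm_of_hom (n : ℕ) (hn : 1 ≤ n) (P : A N)
    (h : ∀ u : List (Fin N), u.length = n → ∑ p ∈ Finset.range n, co (u.rotate p) P = 0) :
    comp n P ∈ comm N := by
  have h1 : rots (comp n P) = 0 := by
    apply eq_zero_of_co
    intro u
    rw [co_rots]
    by_cases hu : u.length = n
    · have : ∀ p ∈ Finset.range u.length, co (u.rotate p) (comp n P) = co (u.rotate p) P := by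
        intro p _
        rw [co_comp, List.length_rotate, if_pos hu]
      rw [Finset.sum_congr rfl this, hu]
      exact h u hu
    · refine Finset.sum_eq_zero fun p _ => ?_
      rw [co_comp, List.length_rotate, if_neg hu]
  have h2 := lenMul_sub_rots (comp n P)
  rw [h1, sub_zero, lenMul_of_hom] at h2
  have h3 := Submodule.smul_mem _ ((n : ℂ)⁻¹) h2
  rwa [smul_smul, inv_mul_cancel₀ (by exact_mod_cast (by omega : n ≠ 0)), one_smul] at h3

/-- `trEv` as a linear map -/
def trL (m : ℕ) : A N →ₗ[ℂ] R N m :=
  (Matrix.traceLinearMap (Fin m) ℂ (R N m)) ∘ₗ (ev m : A N →ₐ[ℂ] _).toLinearMap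

lemma trL_apply (P : A N) : trL m P = trEv m P := rfl

lemma trEv_add (P Q : A N) : trEv m (P + Q) = trEv m P + trEv m Q := map_add (trL m) P Q

lemma trEv_smul (c : ℂ) (P : A N) : trEv m (c • P) = c • trEv m P := map_smul (trL m) c P

lemma trEv_sub (P Q : A N) : trEv m (P - Q) = trEv m P - trEv m Q := map_sub (trL m) P Q

lemma trEv_comm (u v : A N) : trEv m (u * v) = trEv m (v * u) := by
  rw [trEv, trEv, map_mul, map_mul, Matrix.trace_mul_comm]

lemma trEv_of_mem_comm (P : A N) (h : P ∈ comm N) : trEv m P = 0 := by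
  rw [← trL_apply, ← LinearMap.mem_ker]
  have : comm N ≤ LinearMap.ker (trL m) := by
    rw [comm, Submodule.span_le]
    rintro _ ⟨u, v, rfl⟩
    rw [SetLike.mem_coe, LinearMap.mem_ker, map_sub, trL_apply, trL_apply, trEv_comm, sub_self]
  exact this h

lemma rot_list (L : List (Fin m × Fin N)) (y : Fin m) (hy : hd L y = y) (p : ℕ) :
    pmon (L.drop p ++ L.take p) (hd (L.drop p) y) = pmon L y := by
  have := rot_pmon (L.take p) (L.drop p) y (by rw [List.take_append_drop]; exact hy)
  rw [this, List.take_append_drop]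

lemma rot_nodup (L : List (Fin m × Fin N)) (h : (L.map Prod.fst).Nodup) (p : ℕ) :
    ((L.drop p ++ L.take p).map Prod.fst).Nodup := by
  rw [List.map_append]
  refine (List.Perm.nodup_iff List.perm_append_comm).1 ?_
  rw [← List.map_append, List.take_append_drop]
  exact h

lemma rot_hd (L : List (Fin m × Fin N)) (y : Fin m) (hy : hd L y = y) (p : ℕ) :
    hd (L.drop p ++ L.take p) (hd (L.drop p) y) = hd (L.drop p) y := by
  rw [hd_append]
  have : hd (L.take p) (hd (L.drop p) y) = y := by
    rw [← hd_append, List.take_append_drop]; exact hy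
  rw [this]

lemma coeff_trEv_wd (L : List (Fin m × Fin N)) (y : Fin m) (hne : L ≠ []) (hy : hd L y = y)
    (hL : (L.map Prod.fst).Nodup) (w : List (Fin N)) :
    coeff (pmon L y) (trEv m (wd w)) =
      ∑ p ∈ Finset.range L.length, if w = (L.map Prod.snd).rotate p then 1 else 0 := by
  classical
  rw [trEv, Matrix.trace, coeff_sum]
  simp only [Matrix.diag_apply]
  rw [sum_verts L y hL]
  · refine Finset.sum_congr rfl fun p hp => ?_
    rw [Finset.mem_range] at hp
    rw [← rot_list L y hy p, coeff_closed _ _ (rot_nodup L hL p) (rot_hd L y hy p),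
      List.rotate_eq_drop_append_take (by rw [List.length_map]; omega)]
    simp only [List.map_append, List.map_drop, List.map_take, eq_comm]
  · intro b hb
    rcases eq_or_ne w [] with rfl | hw
    · rw [wd_nil, map_one, Matrix.one_apply_eq, coeff_one, if_neg]
      intro h
      exact hne (pmon_eq_zero _ _ h.symm)
    · have := coeff_ev_no_out (pmon L y) b b (fun k z => pmon_apply_of_notMem L y _ hb) w hw 1
      rwa [mul_one] at this

lemma coeff_trEv (L : List (Fin m × Fin N)) (y : Fin m) (hne : L ≠ []) (hy : hd L y = y)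
    (hL : (L.map Prod.fst).Nodup) (P : A N) :
    coeff (pmon L y) (trEv m P) =
      ∑ p ∈ Finset.range L.length, co ((L.map Prod.snd).rotate p) P := by
  induction P using ind_wd with
  | h1 w => rw [coeff_trEv_wd L y hne hy hL]; simp only [co_wd]
  | h2 P Q h1 h2 => simp only [trEv_add, map_add, coeff_add, h1, h2, Finset.sum_add_distrib]
  | h3 c P h1 => simp only [trEv_smul, map_smul, coeff_smul, h1, Finset.smul_sum]

/-- the cycle with labels `w` on the vertices `0, ..., |w|-1` -/
def cyc (w : List (Fin N)) (h : w.length ≤ m) : List (Fin m × Fin N) :=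
  List.zip ((List.finRange w.length).map (Fin.castLE h)) w

lemma cyc_snd (w : List (Fin N)) (h : w.length ≤ m) : (cyc w h).map Prod.snd = w := by
  rw [cyc, List.map_snd_zip]; simp

lemma cyc_length (w : List (Fin N)) (h : w.length ≤ m) : (cyc w h).length = w.length := by
  simp [cyc]

lemma cyc_nodup (w : List (Fin N)) (h : w.length ≤ m) : ((cyc w h).map Prod.fst).Nodup := by
  rw [cyc, List.map_fst_zip (by simp)]
  exact (List.nodup_finRange _).map (Fin.castLE_injective h)

lemma exists_cycle (w : List (Fin N)) (hw : w ≠ []) (h : w.length ≤ m) :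
    ∃ (L : List (Fin m × Fin N)) (y : Fin m), L ≠ [] ∧ hd L y = y ∧ (L.map Prod.fst).Nodup ∧
      L.map Prod.snd = w := by
  have hne : cyc w h ≠ [] := by
    intro h0
    have := cyc_length w h
    rw [h0] at this
    exact hw (List.length_eq_zero_iff.1 this.symm)
  obtain ⟨e, L, hL⟩ := List.exists_cons_of_ne_nil hne
  exact ⟨cyc w h, e.1, hne, by rw [hL, hd_cons], cyc_nodup w h, cyc_snd w h⟩

lemma co_sum_of_trEv (P : A N) (w : List (Fin N)) (hw : w ≠ []) (h : w.length ≤ m)
    (hP : trEv m P = 0) : ∑ p ∈ Finset.range w.length, co (w.rotate p) P = 0 := by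
  obtain ⟨L, y, h1, h2, h3, h4⟩ := exists_cycle w hw h
  have := coeff_trEv L y h1 h2 h3 P
  rw [hP, coeff_zero, h4] at this
  rw [← h4, List.length_map, h4]
  exact this.symm

lemma coeff_zero_trEv (P : A N) : coeff 0 (trEv m P) = m * co [] P := by
  induction P using ind_wd with
  | h1 w =>
    rw [co_wd]
    cases w with
    | nil =>
      rw [trEv, wd_nil, map_one, Matrix.trace_one, Fintype.card_fin, if_pos rfl, mul_one,
        ← map_natCast (C : ℂ →+* R N m), coeff_zero_C]
    | cons k w =>
      rw [if_neg (by simp), trEv, Matrix.trace, coeff_sum]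
      refine (Finset.sum_eq_zero fun b _ => ?_).trans (by simp)
      have := coeff_ev_no_out 0 b b (fun k z => rfl) (k :: w) (by simp) (1 : R N m)
      rwa [mul_one] at this
  | h2 P Q h1 h2 => rw [trEv_add, coeff_add, h1, map_add, h2]; ring
  | h3 c P h1 => rw [trEv_smul, coeff_smul, h1, map_smul, smul_eq_mul, smul_eq_mul]; ring

lemma comp_zero (P : A N) : comp 0 P = co [] P • (1 : A N) := by
  induction P using ind_wd with
  | h1 w =>
    rw [comp_wd, co_wd]
    cases w with
    | nil => simp [wd_nil]
    | cons k w => simp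
  | h2 P Q h1 h2 => rw [map_add, map_add, h1, h2, add_smul]
  | h3 c P h1 => rw [map_smul, map_smul, h1, smul_smul, smul_eq_mul]

lemma comp_mem_comm_of_trEv (n : ℕ) (hm : 1 ≤ m) (hn : n ≤ m) (P : A N) (hP : trEv m P = 0) :
    comp n P ∈ comm N := by
  rcases Nat.eq_zero_or_pos n with rfl | hn0
  · have := coeff_zero_trEv (m := m) P
    rw [hP, coeff_zero] at this
    rw [comp_zero]
    have h2 : (m : ℂ) ≠ 0 := by exact_mod_cast (by omega : m ≠ 0)
    have h3 : co [] P = 0 := by
      rcases mul_eq_zero.1 this.symm with h | h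
      · exact absurd h h2
      · exact h
    rw [h3, zero_smul]; exact Submodule.zero_mem _
  · apply mem_comm_of_hom n hn0
    intro u hu
    have := co_sum_of_trEv P u (by rintro rfl; simp at hu; omega) (by omega) hP
    rwa [hu] at this

lemma comp_mem_comm (n : ℕ) (P : A N) (hP : P ∈ comm N) : comp n P ∈ comm N :=
  comp_mem_comm_of_trEv n (m := n + 1) (by omega) (by omega) P (trEv_of_mem_comm P hP)

/-- coefficient arrays of homogeneous local operators of degree `d` -/
abbrev Co (N d : ℕ) := Fin N → Fin N → Fin (d + 1) → List.Vector (Fin N) d → ℂ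

/-- the local operators with the given coefficients -/
def Op (d : ℕ) (c : Co N d) (i j : Fin N) : Module.End ℂ (A N) :=
  ∑ l : Fin (d + 1), ∑ v : List.Vector (Fin N) d,
    c i j l v • (LinearMap.mulLeft ℂ (wd (v.toList.take l)) ∘ₗ
      LinearMap.mulRight ℂ (wd (v.toList.drop l)))

/-- the pairing `∑ f_i Θ_ij (g_j)` -/
def pair (Θ : Fin N → Fin N → Module.End ℂ (A N)) (P₁ P₂ : A N) : A N :=
  ∑ i : Fin N, ∑ j : Fin N, grad i P₁ * Θ i j (grad j P₂)

lemma Op_apply (d : ℕ) (c : Co N d) (i j : Fin N) (P : A N) :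
    Op d c i j P = ∑ l : Fin (d + 1), ∑ v : List.Vector (Fin N) d,
      c i j l v • (wd (v.toList.take l) * (P * wd (v.toList.drop l))) := by
  simp [Op, LinearMap.sum_apply]

lemma grad_wd' (k : Fin N) (w : List (Fin N)) :
    grad k (wd w) = ∑ r : Fin w.length, if w.get r = k then wd (cut w r) else 0 := by
  rw [grad_wd]; rfl

lemma pair_wd (Θ : Fin N → Fin N → Module.End ℂ (A N)) (f g : List (Fin N)) :
    pair Θ (wd f) (wd g) = ∑ r : Fin f.length, ∑ s : Fin g.length,
      wd (cut f r) * Θ (f.get r) (g.get s) (wd (cut g s)) := by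
  have h2 : ∀ i j : Fin N, grad i (wd f) * Θ i j (grad j (wd g)) =
      ∑ r : Fin f.length, ∑ s : Fin g.length,
        if f.get r = i then (if g.get s = j then wd (cut f r) * Θ i j (wd (cut g s)) else 0)
        else 0 := by
    intro i j
    rw [grad_wd', grad_wd', map_sum, Finset.sum_mul]
    refine Finset.sum_congr rfl fun r _ => ?_
    rw [Finset.mul_sum]
    refine Finset.sum_congr rfl fun s _ => ?_
    by_cases h1 : f.get r = i
    · by_cases h3 : g.get s = j
      · simp only [h1, h3, if_true]
      · simp only [h3, if_false, map_zero, mul_zero, ite_self]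
    · simp only [h1, if_false, zero_mul]
  unfold pair
  simp only [h2]
  -- move the sums
  have h3 : ∀ i : Fin N, (∑ j : Fin N, ∑ r : Fin f.length, ∑ s : Fin g.length,
      if f.get r = i then (if g.get s = j then wd (cut f r) * Θ i j (wd (cut g s)) else 0) else 0) =
      ∑ r : Fin f.length, ∑ s : Fin g.length,
        if f.get r = i then wd (cut f r) * Θ i (g.get s) (wd (cut g s)) else 0 := by
    intro i
    rw [Finset.sum_comm]
    refine Finset.sum_congr rfl fun r _ => ?_
    rw [Finset.sum_comm]
    refine Finset.sum_congr rfl fun s _ => ?_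
    by_cases h1 : f.get r = i
    · simp only [h1, if_true]
      rw [Finset.sum_ite_eq Finset.univ (g.get s), if_pos (Finset.mem_univ _)]
    · simp only [h1, if_false, Finset.sum_const_zero]
  simp only [h3]
  rw [Finset.sum_comm]
  refine Finset.sum_congr rfl fun r _ => ?_
  rw [Finset.sum_comm]
  refine Finset.sum_congr rfl fun s _ => ?_
  rw [Finset.sum_ite_eq Finset.univ (f.get r), if_pos (Finset.mem_univ _)]

lemma pair_Op (d : ℕ) (c : Co N d) (f g : List (Fin N)) :
    pair (Op d c) (wd f) (wd g) = ∑ r : Fin f.length, ∑ s : Fin g.length,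
      ∑ l : Fin (d + 1), ∑ v : List.Vector (Fin N) d, c (f.get r) (g.get s) l v •
        wd (cut f r ++ (v.toList.take l ++ (cut g s ++ v.toList.drop l))) := by
  rw [pair_wd]
  refine Finset.sum_congr rfl fun r _ => Finset.sum_congr rfl fun s _ => ?_
  rw [Op_apply, Finset.mul_sum]
  refine Finset.sum_congr rfl fun l _ => ?_
  rw [Finset.mul_sum]
  refine Finset.sum_congr rfl fun v _ => ?_
  rw [mul_smul_comm, wd_mul, wd_mul, wd_mul]

/-- structure constants of degree `d` of the bracket on `m × m` matrices -/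
def cmV (B : PBr (R N m)) (d : ℕ) : Co N d :=
  fun i j l v => cm B i j (v.toList.take l) (v.toList.drop l)

lemma key_b (F : TraceFam N) (hm : 1 ≤ m) (L : List (Fin m × Fin N)) (y : Fin m)
    (hy : hd L y = y) (hL : (L.map Prod.fst).Nodup) (i j : Fin N)
    (u u' : List (Fin N)) (hu : u ≠ []) (hu' : u' ≠ []) (d : ℕ)
    (hlen : L.length = u.length + u'.length + d) (b : Fin m) :
    ∑ a : Fin m, ∑ e : Fin m, ∑ c : Fin m,
      coeff (pmon L y) (ev m (wd u) b a * (ev m (wd u') e c *
        (F.B m).br (X (i, a, b)) (X (j, c, e)))) =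
    ∑ l : Fin (d + 1), ∑ v : List.Vector (Fin N) d, cmV (F.B m) d i j l v *
      coeff (pmon L y) (ev m (wd (u ++ (v.toList.take l ++ (u' ++ v.toList.drop l)))) b b) := by
  by_cases hb : b ∈ L.map Prod.fst
  · obtain ⟨p, hp, hp2⟩ : ∃ p, p < L.length ∧ hd (L.drop p) y = b := by
      rw [List.mem_map] at hb
      obtain ⟨e, he, rfl⟩ := hb
      obtain ⟨p, hp, rfl⟩ := List.getElem_of_mem he
      refine ⟨p, hp, ?_⟩
      rw [List.drop_eq_getElem_cons hp, hd_cons]
    have hL' := rot_nodup L hL p
    have hh := rot_hd L y hy p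
    have hpm := rot_list L y hy p
    rw [hp2] at hh hpm
    have := key_extract (L.drop p ++ L.take p) b hL' hh u u' hu hu' d
      (by rw [List.length_append, List.length_drop, List.length_take]; omega)
      (fun a e c => (F.B m).br (X (i, a, b)) (X (j, c, e))) (cm (F.B m) i j)
      (by
        intro L₃ L₅ e _ hnd
        exact cf_eq_cm F hm i j L₃ L₅ e b hnd)
    rw [hpm] at this
    exact this
  · have hout : ∀ k z, pmon L y (k, b, z) = 0 := fun k z => pmon_apply_of_notMem L y _ hb
    rw [Finset.sum_eq_zero, Finset.sum_eq_zero]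
    · intro l _
      refine Finset.sum_eq_zero fun v _ => ?_
      have := coeff_ev_no_out (pmon L y) b b hout
        (u ++ (v.toList.take l ++ (u' ++ v.toList.drop l))) (by simp [hu]) 1
      rw [mul_one] at this
      rw [this, mul_zero]
    · intro a _
      refine Finset.sum_eq_zero fun e _ => Finset.sum_eq_zero fun c _ => ?_
      exact coeff_ev_no_out _ _ _ hout _ hu _

lemma cut_ne_nil (w : List (Fin N)) (r : Fin w.length) (h : 2 ≤ w.length) : cut w r ≠ [] := by
  intro h0
  have := cut_length w r
  rw [h0, List.length_nil] at this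
  omega

theorem main_A (F : TraceFam N) (hm : 1 ≤ m) (f g : List (Fin N)) (hf : 2 ≤ f.length)
    (hg : 2 ≤ g.length) (d : ℕ) (hn : f.length + g.length - 2 + d ≤ m) (P : A N)
    (hP : (F.B m).br (trEv m (wd f)) (trEv m (wd g)) = trEv m P) :
    comp (f.length + g.length - 2 + d) (P - pair (Op d (cmV (F.B m) d)) (wd f) (wd g)) ∈ comm N := by
  apply mem_comm_of_hom _ (by omega)
  intro u hu
  obtain ⟨L, y, h1, h2, h3, h4⟩ := exists_cycle (m := m) u (by rintro rfl; simp at hu; omega) (by omega)
  have hLl : L.length = f.length + g.length - 2 + d := by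
    rw [← hu, ← h4, List.length_map]
  have h5 := coeff_trEv L y h1 h2 h3 (P - pair (Op d (cmV (F.B m) d)) (wd f) (wd g))
  rw [h4, hLl] at h5
  rw [← h5, trEv_sub, coeff_sub, ← hP, br_tr, sub_eq_zero]
  have h6 : trEv m (pair (Op d (cmV (F.B m) d)) (wd f) (wd g)) =
      ∑ r : Fin f.length, ∑ s : Fin g.length, ∑ b : Fin m,
        ∑ l : Fin (d + 1), ∑ v : List.Vector (Fin N) d, cmV (F.B m) d (f.get r) (g.get s) l v •
        ev m (wd (cut f r ++ (v.toList.take l ++ (cut g s ++ v.toList.drop l)))) b b := by
    rw [pair_Op, ← trL_apply]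
    simp only [map_sum, map_smul, trL_apply, trEv, Matrix.trace, Matrix.diag_apply, Finset.smul_sum]
    refine Finset.sum_congr rfl fun r _ => Finset.sum_congr rfl fun s _ => ?_
    symm
    rw [Finset.sum_comm]
    refine Finset.sum_congr rfl fun l _ => ?_
    rw [Finset.sum_comm]
  rw [h6]
  simp only [coeff_sum, coeff_smul]
  refine Finset.sum_congr rfl fun r _ => Finset.sum_congr rfl fun s _ =>
    Finset.sum_congr rfl fun b _ => ?_
  have hr := cut_length f r
  have hs := cut_length g s
  exact key_b F hm L y h2 h3 _ _ _ _ (cut_ne_nil f r hf) (cut_ne_nil g s hg) d (by omega) b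

/-- `c ↦ pair (Op d c) f g` is linear -/
def LC (d : ℕ) (f g : List (Fin N)) : Co N d →ₗ[ℂ] A N where
  toFun c := pair (Op d c) (wd f) (wd g)
  map_add' c c' := by
    simp only [pair_Op, Pi.add_apply, add_smul, Finset.sum_add_distrib]
  map_smul' a c := by
    simp only [pair_Op, Pi.smul_apply, smul_eq_mul, mul_smul, Finset.smul_sum, RingHom.id_apply]

lemma LC_apply (d : ℕ) (f g : List (Fin N)) (c : Co N d) :
    LC d f g c = pair (Op d c) (wd f) (wd g) := rfl

/-- arrays that vanish on all nonlinear words of length at most `n` -/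
def KK (N d n : ℕ) : Submodule ℂ (Co N d) where
  carrier := {c | ∀ f g : List (Fin N), 2 ≤ f.length → f.length ≤ n → 2 ≤ g.length → g.length ≤ n →
    LC d f g c ∈ comm N}
  add_mem' := by
    intro a b ha hb f g h1 h2 h3 h4
    rw [map_add]
    exact Submodule.add_mem _ (ha f g h1 h2 h3 h4) (hb f g h1 h2 h3 h4)
  zero_mem' := by
    intro f g _ _ _ _
    rw [map_zero]; exact Submodule.zero_mem _
  smul_mem' := by
    intro a b hb f g h1 h2 h3 h4
    rw [map_smul]
    exact Submodule.smul_mem _ _ (hb f g h1 h2 h3 h4)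

lemma KK_anti (d : ℕ) {n n' : ℕ} (h : n ≤ n') : KK N d n' ≤ KK N d n := by
  intro c hc f g h1 h2 h3 h4
  exact hc f g h1 (h2.trans h) h3 (h4.trans h)

lemma KK_stab (d : ℕ) : ∃ n₀, ∀ n, n₀ ≤ n → KK N d n₀ = KK N d n := by
  let F : ℕ →o (Submodule ℂ (Co N d))ᵒᵈ := ⟨fun n => OrderDual.toDual (KK N d n), by
    intro a b h
    exact KK_anti d h⟩
  obtain ⟨n₀, h⟩ := IsArtinian.monotone_stabilizes F
  exact ⟨n₀, fun n hn => h n hn⟩

lemma comp_pair (d : ℕ) (c : Co N d) (f g : List (Fin N)) :
    comp (f.length + g.length - 2 + d) (pair (Op d c) (wd f) (wd g)) =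
      pair (Op d c) (wd f) (wd g) := by
  rw [pair_Op]
  simp only [map_sum, map_smul]
  refine Finset.sum_congr rfl fun r _ => Finset.sum_congr rfl fun s _ =>
    Finset.sum_congr rfl fun l _ => Finset.sum_congr rfl fun v _ => ?_
  rw [comp_wd, if_pos]
  have hr := cut_length f r
  have hs := cut_length g s
  have hl := l.2
  simp only [List.length_append, List.length_take, List.length_drop, List.Vector.toList_length]
  omega

/-- the operators `Op d c` compute the component of degree `d` of the bracket of `f` and `g` -/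
def Rep (F : TraceFam N) (d : ℕ) (c : Co N d) (f g : List (Fin N)) : Prop :=
  ∀ P, Ind F (wd f) (wd g) P →
    comp (f.length + g.length - 2 + d) P - pair (Op d c) (wd f) (wd g) ∈ comm N

lemma rep_of_large (F : TraceFam N) (hm : 1 ≤ m) (f g : List (Fin N)) (hf : 2 ≤ f.length)
    (hg : 2 ≤ g.length) (d : ℕ) (hn : f.length + g.length - 2 + d ≤ m) :
    Rep F d (cmV (F.B m) d) f g := by
  intro P hP
  have := main_A F hm f g hf hg d hn P (hP m hm)
  rwa [map_sub, comp_pair] at this

/-- existence of structure constants for all nonlinear words -/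
lemma exists_rep_nonlinear (F : TraceFam N) (d : ℕ) : ∃ m, 1 ≤ m ∧
    ∀ f g : List (Fin N), 2 ≤ f.length → 2 ≤ g.length → Rep F d (cmV (F.B m) d) f g := by
  obtain ⟨n₀, hn₀⟩ := KK_stab (N := N) d
  refine ⟨2 * n₀ + d + 1, by omega, ?_⟩
  intro f g hf hg
  set n := max n₀ (max f.length g.length) with hn
  have h1 : n₀ ≤ n := le_max_left _ _
  have h2 : f.length ≤ n := (le_max_left _ _).trans (le_max_right _ _)
  have h3 : g.length ≤ n := (le_max_right _ _).trans (le_max_right _ _)
  have key : cmV (F.B (2 * n₀ + d + 1)) d - cmV (F.B (2 * n + d + 1)) d ∈ KK N d n₀ := by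
    intro f' g' a1 a2 a3 a4
    obtain ⟨P, hP⟩ := F.closed (wd f') (wd g')
    have b1 := rep_of_large F (m := 2 * n₀ + d + 1) (by omega) f' g' a1 a3 d (by omega) P hP
    have b2 := rep_of_large F (m := 2 * n + d + 1) (by omega) f' g' a1 a3 d (by omega) P hP
    rw [map_sub, LC_apply, LC_apply]
    have := Submodule.sub_mem _ b2 b1
    convert this using 1; abel
  rw [hn₀ n h1] at key
  have h4 := key f g hf h2 hg h3
  rw [map_sub, LC_apply, LC_apply] at h4
  intro P hP
  have h5 := rep_of_large F (m := 2 * n + d + 1) (by omega) f g hf hg d (by omega) P hP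
  have := Submodule.sub_mem _ h5 h4
  convert this using 1; abel

/-- swap the two pieces of a split word -/
def swp (d : ℕ) (x : Fin (d + 1) × List.Vector (Fin N) d) : Fin (d + 1) × List.Vector (Fin N) d :=
  (Fin.rev x.1, ⟨x.2.toList.drop x.1 ++ x.2.toList.take x.1, by
    have := x.1.2
    simp only [List.length_append, List.length_take, List.length_drop, List.Vector.toList_length]
    omega⟩)

lemma swp_fst (d : ℕ) (x : Fin (d + 1) × List.Vector (Fin N) d) :
    ((swp d x).1 : ℕ) = d - x.1 := by
  simp only [swp, Fin.val_rev]; omega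

lemma swp_take (d : ℕ) (x : Fin (d + 1) × List.Vector (Fin N) d) :
    (swp d x).2.toList.take (swp d x).1 = x.2.toList.drop x.1 := by
  rw [swp_fst]
  have : (x.2.toList.drop x.1).length = d - x.1 := by simp
  simp only [swp, List.Vector.toList_mk]
  exact List.take_left' this

lemma swp_drop (d : ℕ) (x : Fin (d + 1) × List.Vector (Fin N) d) :
    (swp d x).2.toList.drop (swp d x).1 = x.2.toList.take x.1 := by
  rw [swp_fst]
  have : (x.2.toList.drop x.1).length = d - x.1 := by simp
  simp only [swp, List.Vector.toList_mk]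
  exact List.drop_left' this

lemma swp_swp (d : ℕ) : Function.Involutive (swp (N := N) d) := by
  intro x
  apply Prod.ext
  · simp [swp]
  · apply List.Vector.toList_injective
    have h : (swp d (swp d x)).2.toList =
        (swp d x).2.toList.drop (swp d x).1 ++ (swp d x).2.toList.take (swp d x).1 := rfl
    rw [h, swp_take, swp_drop, List.take_append_drop]

/-- skew-symmetry of the structure constants -/
lemma skew_pair (F : TraceFam N) (hm : 1 ≤ m) (d : ℕ) (f g : List (Fin N)) :
    pair (Op d (cmV (F.B m) d)) (wd f) (wd g) + pair (Op d (cmV (F.B m) d)) (wd g) (wd f) ∈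
      comm N := by
  rw [pair_Op, pair_Op]
  rw [Finset.sum_comm (s := Finset.univ (α := Fin g.length))]
  rw [← Finset.sum_add_distrib]
  refine Submodule.sum_mem _ fun r _ => ?_
  rw [← Finset.sum_add_distrib]
  refine Submodule.sum_mem _ fun s _ => ?_
  -- reindex the second sum
  have hre : (∑ l : Fin (d + 1), ∑ v : List.Vector (Fin N) d, cmV (F.B m) d (g.get s) (f.get r) l v •
        wd (cut g s ++ (v.toList.take l ++ (cut f r ++ v.toList.drop l)))) =
      ∑ l : Fin (d + 1), ∑ v : List.Vector (Fin N) d,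
        cm (F.B m) (g.get s) (f.get r) (v.toList.drop l) (v.toList.take l) •
        wd (cut g s ++ (v.toList.drop l ++ (cut f r ++ v.toList.take l))) := by
    have e1 := Fintype.sum_prod_type' (fun (l : Fin (d + 1)) (v : List.Vector (Fin N) d) =>
        cmV (F.B m) d (g.get s) (f.get r) l v •
        wd (cut g s ++ (v.toList.take l ++ (cut f r ++ v.toList.drop l))))
    have e2 := Fintype.sum_prod_type' (fun (l : Fin (d + 1)) (v : List.Vector (Fin N) d) =>
        cm (F.B m) (g.get s) (f.get r) (v.toList.drop l) (v.toList.take l) •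
        wd (cut g s ++ (v.toList.drop l ++ (cut f r ++ v.toList.take l))))
    rw [← e1, ← e2, ← Equiv.sum_comp (Function.Involutive.toPerm (swp d) (swp_swp d))]
    refine Finset.sum_congr rfl fun x _ => ?_
    simp only [Function.Involutive.coe_toPerm, cmV, swp_take, swp_drop]
  rw [hre, ← Finset.sum_add_distrib]
  refine Submodule.sum_mem _ fun l _ => ?_
  rw [← Finset.sum_add_distrib]
  refine Submodule.sum_mem _ fun v _ => ?_
  rw [cm_skew F hm (g.get s) (f.get r), neg_smul, ← sub_eq_add_neg]
  have h1 : cmV (F.B m) d (f.get r) (g.get s) l v =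
      cm (F.B m) (f.get r) (g.get s) (v.toList.take l) (v.toList.drop l) := rfl
  rw [h1, ← smul_sub]
  refine Submodule.smul_mem _ _ ?_
  have h2 := mul_sub_mem (wd (cut f r ++ v.toList.take l)) (wd (cut g s ++ v.toList.drop l))
  rw [wd_mul, wd_mul] at h2
  simpa [List.append_assoc] using h2

/-- homogeneous component as a linear map -/
def hc (n : ℕ) : R N m →ₗ[ℂ] R N m := homogeneousComponent n

lemma hc_of_hom {n k : ℕ} {p : R N m} (h : p.IsHomogeneous k) :
    hc n p = if n = k then p else 0 := by
  rw [hc, homogeneousComponent_of_mem ((mem_homogeneousSubmodule _ _).2 h)]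

lemma hc_mul {p n : ℕ} {f : R N m} (hf : f.IsHomogeneous p) (g : R N m) :
    hc (p + n) (f * g) = f * hc n g := by
  conv_lhs => rw [← sum_homogeneousComponent g, Finset.mul_sum, map_sum]
  have h1 : ∀ i ∈ Finset.range (g.totalDegree + 1), hc (p + n) (f * homogeneousComponent i g) =
      if n = i then f * homogeneousComponent i g else 0 := by
    intro i _
    rw [hc_of_hom (hf.mul (homogeneousComponent_isHomogeneous i g))]
    simp
  rw [Finset.sum_congr rfl h1, Finset.sum_ite_eq]
  split_ifs with h
  · rfl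
  · rw [Finset.mem_range, not_lt] at h
    rw [hc, homogeneousComponent_eq_zero _ _ (by omega), mul_zero]

lemma hc_mul_low {p n : ℕ} {f : R N m} (hf : f.IsHomogeneous p) (hn : n < p) (g : R N m) :
    hc n (f * g) = 0 := by
  conv_lhs => rw [← sum_homogeneousComponent g, Finset.mul_sum, map_sum]
  refine Finset.sum_eq_zero fun i _ => ?_
  rw [hc_of_hom (hf.mul (homogeneousComponent_isHomogeneous i g)), if_neg (by omega)]

lemma ev_hom (w : List (Fin N)) (a b : Fin m) : (ev m (wd w) a b).IsHomogeneous w.length := by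
  induction w generalizing a with
  | nil =>
    rw [wd_nil, map_one, Matrix.one_apply]
    split_ifs
    · exact isHomogeneous_one _ _
    · exact isHomogeneous_zero _ _ _
  | cons k w ih =>
    rw [ev_wd_cons, Matrix.mul_apply, List.length_cons, add_comm]
    refine IsHomogeneous.sum _ _ _ fun c _ => ?_
    exact (isHomogeneous_X _ _).mul (ih c)

lemma trEv_hom (w : List (Fin N)) : (trEv m (wd w)).IsHomogeneous w.length :=
  IsHomogeneous.sum _ _ _ fun c _ => ev_hom w c c

lemma hc_trEv (n : ℕ) (P : A N) : hc n (trEv m P) = trEv m (comp n P) := by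
  induction P using ind_wd with
  | h1 w =>
    rw [hc_of_hom (trEv_hom w), comp_wd]
    by_cases h : w.length = n
    · rw [if_pos h.symm, if_pos h]
    · rw [if_neg (fun h' => h h'.symm), if_neg h]
      exact (map_zero (trL m)).symm
  | h2 P Q h1 h2 => rw [trEv_add, map_add, map_add, trEv_add, h1, h2]
  | h3 c P h1 => rw [trEv_smul, map_smul, map_smul, trEv_smul, h1]

/-- Cayley–Hamilton: if `tr (X^k M) = 0` for all `k ≥ 1` then `tr M = 0` -/
lemma tr_zero_of_pow (a : Fin N) (M : Matrix (Fin m) (Fin m) (R N m))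
    (h : ∀ k, 1 ≤ k → (gen m a ^ k * M).trace = 0) : M.trace = 0 := by
  have hCH := Matrix.aeval_self_charpoly (gen m a)
  rw [Polynomial.aeval_eq_sum_range] at hCH
  have h1 := congrArg (fun Y => (Y * M).trace) hCH
  simp only [Finset.sum_mul, Matrix.trace_sum, zero_mul, Matrix.trace_zero,
    smul_mul_assoc, Matrix.trace_smul] at h1
  rw [Finset.sum_eq_single 0] at h1
  · rw [pow_zero, one_mul, smul_eq_mul] at h1
    rcases mul_eq_zero.1 h1 with h2 | h2
    · exfalso
      have h3 : (gen m a).det = 0 := by
        rw [Matrix.det_eq_sign_charpoly_coeff, h2, mul_zero]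
      have h4 := congrArg (MvPolynomial.eval (fun x : Fin N × Fin m × Fin m =>
        if x.2.1 = x.2.2 then (1 : ℂ) else 0)) h3
      rw [RingHom.map_det, map_zero] at h4
      have h5 : (MvPolynomial.eval (fun x : Fin N × Fin m × Fin m =>
          if x.2.1 = x.2.2 then (1 : ℂ) else 0)).mapMatrix (gen m a) = 1 := by
        ext b c
        simp [gen, Matrix.one_apply]
      rw [h5, Matrix.det_one] at h4
      exact one_ne_zero h4
    · exact h2
  · intro k _ hk
    rw [h k (by omega), smul_zero]
  · intro h0; simp at h0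

lemma cut_replicate (k : ℕ) (a : Fin N) (r : Fin (List.replicate k a).length) :
    cut (List.replicate k a) r = List.replicate (k - 1) a := by
  have : (r : ℕ) < k := by simpa using r.2
  rw [cut, List.drop_replicate, List.take_replicate, ← List.replicate_add]
  congr 1
  omega

lemma ev_replicate (k : ℕ) (a : Fin N) : ev m (wd (List.replicate k a)) = gen m a ^ k := by
  rw [ev_wd, List.map_replicate, List.prod_replicate]

lemma pair_replicate (Θ : Fin N → Fin N → Module.End ℂ (A N)) (k : ℕ) (a : Fin N)
    (g : List (Fin N)) : pair Θ (wd (List.replicate k a)) (wd g) =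
      (k : ℂ) • (wd (List.replicate (k - 1) a) * pair Θ (wd [a]) (wd g)) := by
  have h1 : pair Θ (wd [a]) (wd g) = ∑ s : Fin g.length, Θ a (g.get s) (wd (cut g s)) := by
    rw [pair_wd]
    have hs := Fin.sum_univ_one (fun r : Fin ([a] : List (Fin N)).length =>
      ∑ s : Fin g.length, wd (cut [a] r) * Θ ([a].get r) (g.get s) (wd (cut g s)))
    refine Eq.trans hs ?_
    refine Finset.sum_congr rfl fun s _ => ?_
    have : wd (cut [a] ((0 : Fin 1) : ℕ)) = (1 : A N) := rfl
    rw [this, one_mul]
    rfl
  rw [pair_wd, h1, Finset.mul_sum]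
  have h2 : ∀ r : Fin (List.replicate k a).length,
      (∑ s : Fin g.length, wd (cut (List.replicate k a) r) *
        Θ ((List.replicate k a).get r) (g.get s) (wd (cut g s))) =
      ∑ s : Fin g.length, wd (List.replicate (k - 1) a) * Θ a (g.get s) (wd (cut g s)) := by
    intro r
    refine Finset.sum_congr rfl fun s _ => ?_
    rw [cut_replicate]
    congr 2
    simp
  rw [Finset.sum_congr rfl fun r _ => h2 r, Finset.sum_const, Finset.card_univ, Fintype.card_fin,
    List.length_replicate, Nat.cast_smul_eq_nsmul]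

/-- from powers to linear words -/
lemma rep_linear (F : TraceFam N) (d : ℕ) (c : Co N d) (a : Fin N) (g : List (Fin N))
    (hg : 1 ≤ g.length) (h : ∀ k, 2 ≤ k → Rep F d c (List.replicate k a) g) : Rep F d c [a] g := by
  intro P hP
  set m := g.length + d + 1 with hm
  have hm1 : 1 ≤ m := by omega
  set D : R N m →ₗ[ℂ] R N m := (F.B m).br.flip (trEv m (wd g)) with hD
  have hDl := br_flip_leibniz (F.B m) (trEv m (wd g))
  set G := pair (Op d c) (wd [a]) (wd g) with hG
  -- matrix of components
  set E : Matrix (Fin m) (Fin m) (R N m) :=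
    Matrix.of fun i j => hc (g.length - 1 + d) (mD D (gen m a) i j) with hE
  have hDtr : ∀ k, D (trEv m (wd (List.replicate k a))) =
      (k : ℂ) • (gen m a ^ (k - 1) * mD D (gen m a)).trace := by
    intro k
    rw [D_trEv D hDl]
    have : ∀ r : Fin (List.replicate k a).length,
        (ev m (wd ((List.replicate k a).drop (r + 1) ++ (List.replicate k a).take r)) *
          mD D (gen m ((List.replicate k a).get r))).trace =
        (gen m a ^ (k - 1) * mD D (gen m a)).trace := by
      intro r
      have h1 := cut_replicate k a r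
      unfold cut at h1
      rw [h1, ev_replicate]
      congr 4
      simp
    rw [Finset.sum_congr rfl fun r _ => this r, Finset.sum_const, Finset.card_univ,
      Fintype.card_fin, List.length_replicate, Nat.cast_smul_eq_nsmul]
  have hhc : ∀ k, hc (k + (g.length - 1 + d)) ((gen m a ^ k * mD D (gen m a)).trace) =
      (gen m a ^ k * E).trace := by
    intro k
    simp only [Matrix.trace, Matrix.diag_apply, Matrix.mul_apply, map_sum]
    refine Finset.sum_congr rfl fun b _ => Finset.sum_congr rfl fun e _ => ?_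
    have h1 := ev_hom (m := m) (List.replicate k a) b e
    rw [ev_replicate, List.length_replicate] at h1
    rw [hc_mul h1]
    rfl
  have hkey : ∀ k, 1 ≤ k → (gen m a ^ k * (E - ev m G)).trace = 0 := by
    intro k hk
    obtain ⟨Pk, hPk⟩ := F.closed (wd (List.replicate (k + 1) a)) (wd g)
    have h1 := h (k + 1) (by omega) Pk hPk
    have h2 := trEv_of_mem_comm (m := m) _ h1
    rw [trEv_sub, pair_replicate, List.length_replicate, trEv_smul, ← hG, Nat.add_sub_cancel,
      ← hc_trEv, sub_eq_zero] at h2
    have h3 : (F.B m).br (trEv m (wd (List.replicate (k + 1) a))) (trEv m (wd g)) = trEv m Pk :=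
      hPk m hm1
    have h4 : D (trEv m (wd (List.replicate (k + 1) a))) = trEv m Pk := h3
    rw [hDtr, Nat.add_sub_cancel] at h4
    rw [← h4, map_smul, show k + 1 + g.length - 2 + d = k + (g.length - 1 + d) by omega,
      hhc] at h2
    have h5 : ((k + 1 : ℕ) : ℂ) ≠ 0 := by exact_mod_cast (by omega : k + 1 ≠ 0)
    have h6 := smul_right_injective (R N m) h5 h2
    rw [mul_sub, Matrix.trace_sub, h6, sub_eq_zero, trEv, map_mul, ev_replicate]
  have hfin := tr_zero_of_pow a _ hkey
  rw [Matrix.trace_sub, sub_eq_zero] at hfin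
  have h0 := hhc 0
  rw [pow_zero, one_mul, one_mul, zero_add, hfin] at h0
  have h1 : (mD D (gen m a)).trace = trEv m P := by
    have h3 : (F.B m).br (trEv m (wd [a])) (trEv m (wd g)) = trEv m P := hP m hm1
    have h4 := hDtr 1
    simp only [List.replicate_one, Nat.cast_one, one_smul, Nat.sub_self, pow_zero, one_mul] at h4
    rw [← h4]; exact h3
  rw [h1, hc_trEv] at h0
  have h2 : trEv m (comp (g.length - 1 + d) P - G) = 0 := by
    rw [trEv_sub, h0, sub_eq_zero]; rfl
  have h3 := comp_mem_comm_of_trEv (m := m) (g.length - 1 + d) hm1 (by omega) _ h2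
  have h4 : ([a] : List (Fin N)).length + g.length - 2 + d = g.length - 1 + d := by
    simp only [List.length_cons, List.length_nil]; omega
  rw [h4]
  have h5 := comp_pair d c [a] g
  rw [h4, ← hG] at h5
  rw [map_sub, comp_comp, h5] at h3
  exact h3

lemma Ind_swap {F : TraceFam N} {P Q S : A N} (h : Ind F P Q S) : Ind F Q P (-S) := by
  intro m hm
  rw [(F.B m).skew, h m hm]
  exact (map_neg (trL m) S).symm

/-- all nonempty words -/
theorem exists_rep (F : TraceFam N) (d : ℕ) : ∃ c : Co N d,
    ∀ f g : List (Fin N), 1 ≤ f.length → 1 ≤ g.length → Rep F d c f g := by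
  obtain ⟨m, hm, hrep⟩ := exists_rep_nonlinear F d
  refine ⟨cmV (F.B m) d, ?_⟩
  -- f linear, g nonlinear
  have h1 : ∀ (a : Fin N) (g : List (Fin N)), 2 ≤ g.length → Rep F d (cmV (F.B m) d) [a] g := by
    intro a g hg
    refine rep_linear F d _ a g (by omega) fun k hk => hrep _ _ (by simpa using hk) hg
  -- f nonlinear, g linear
  have h2 : ∀ (f : List (Fin N)) (b : Fin N), 2 ≤ f.length → Rep F d (cmV (F.B m) d) f [b] := by
    intro f b hf P hP
    have h3 := h1 b f hf (-P) (Ind_swap hP)
    have h4 := skew_pair F hm d f [b]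
    have h5 : f.length + ([b] : List (Fin N)).length - 2 + d =
      ([b] : List (Fin N)).length + f.length - 2 + d := by omega
    rw [h5]
    rw [map_neg] at h3
    have h6 := Submodule.neg_mem _ (Submodule.add_mem _ h3 h4)
    convert h6 using 1
    abel
  have h3 : ∀ (a b : Fin N), Rep F d (cmV (F.B m) d) [a] [b] := by
    intro a b
    refine rep_linear F d _ a [b] (by simp) fun k hk => h2 _ _ (by simpa using hk)
  intro f g hf hg
  by_cases hf2 : 2 ≤ f.length
  · by_cases hg2 : 2 ≤ g.length
    · exact hrep f g hf2 hg2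
    · obtain ⟨b, rfl⟩ := List.length_eq_one_iff.1 (show g.length = 1 by omega)
      exact h2 f b hf2
  · obtain ⟨a, rfl⟩ := List.length_eq_one_iff.1 (show f.length = 1 by omega)
    by_cases hg2 : 2 ≤ g.length
    · exact h1 a g hg2
    · obtain ⟨b, rfl⟩ := List.length_eq_one_iff.1 (show g.length = 1 by omega)
      exact h3 a b

/-- components below the expected degree vanish -/
lemma comp_low (F : TraceFam N) (f g : List (Fin N)) (n : ℕ) (hn : n + 2 < f.length + g.length)
    (P : A N) (hP : Ind F (wd f) (wd g) P) : comp n P ∈ comm N := by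
  have h1 : trEv (n + 1) (comp n P) = 0 := by
    rw [← hc_trEv, ← hP (n + 1) (by omega), br_tr]
    simp only [map_sum]
    refine Finset.sum_eq_zero fun r _ => Finset.sum_eq_zero fun s _ => Finset.sum_eq_zero fun b _ =>
      Finset.sum_eq_zero fun a _ => Finset.sum_eq_zero fun d _ => Finset.sum_eq_zero fun c _ => ?_
    rw [← mul_assoc]
    have hr := cut_length f r
    have hs := cut_length g s
    exact hc_mul_low ((ev_hom (cut f r) b a).mul (ev_hom (cut g s) d c)) (by omega) _
  have := comp_mem_comm_of_trEv (m := n + 1) n (by omega) (by omega) _ h1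
  rwa [comp_comp] at this

/-- words of `P` have length less than `n` -/
lemma eq_sum_comp (P : A N) : ∃ n₀, ∀ n, n₀ ≤ n → P = ∑ k ∈ Finset.range n, comp k P := by
  induction P using ind_wd with
  | h1 w =>
    refine ⟨w.length + 1, fun n hn => ?_⟩
    simp only [comp_wd]
    rw [Finset.sum_ite_eq, if_pos (by rw [Finset.mem_range]; omega)]
  | h2 P Q h1 h2 =>
    obtain ⟨n₁, h1⟩ := h1
    obtain ⟨n₂, h2⟩ := h2
    refine ⟨max n₁ n₂, fun n hn => ?_⟩
    simp only [map_add, Finset.sum_add_distrib]
    rw [← h1 n ((le_max_left _ _).trans hn), ← h2 n ((le_max_right _ _).trans hn)]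
  | h3 c P h1 =>
    obtain ⟨n₁, h1⟩ := h1
    refine ⟨n₁, fun n hn => ?_⟩
    simp only [map_smul, ← Finset.smul_sum]
    rw [← h1 n hn]

lemma ind_unique {F : TraceFam N} {P Q S S' : A N} (h : Ind F P Q S) (h' : Ind F P Q S') :
    S - S' ∈ comm N := by
  obtain ⟨n₀, hn₀⟩ := eq_sum_comp (S - S')
  rw [hn₀ n₀ le_rfl]
  refine Submodule.sum_mem _ fun k _ => ?_
  refine comp_mem_comm_of_trEv (m := k + 1) k (by omega) (by omega) _ ?_
  rw [trEv_sub, ← h (k + 1) (by omega), ← h' (k + 1) (by omega), sub_self]

/-- the property of partial sums, for words -/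
lemma words_sum (F : TraceFam N) (Θ : ∀ d, Co N d)
    (hΘ : ∀ d (f g : List (Fin N)), 1 ≤ f.length → 1 ≤ g.length → Rep F d (Θ d) f g)
    (f g : List (Fin N)) (P : A N) (hP : Ind F (wd f) (wd g) P) :
    ∃ n₀, ∀ n, n₀ ≤ n → P - ∑ d ∈ Finset.range n, pair (Op d (Θ d)) (wd f) (wd g) ∈ comm N := by
  by_cases h0 : 1 ≤ f.length ∧ 1 ≤ g.length
  · obtain ⟨hf, hg⟩ := h0
    obtain ⟨n₀, hn₀⟩ := eq_sum_comp P
    refine ⟨n₀, fun n hn => ?_⟩
    set t := f.length + g.length - 2 with ht
    have h1 := hn₀ (t + n) (by omega)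
    rw [Finset.sum_range_add] at h1
    have h2 : P - ∑ d ∈ Finset.range n, pair (Op d (Θ d)) (wd f) (wd g) =
        ∑ k ∈ Finset.range t, comp k P +
        ∑ d ∈ Finset.range n, (comp (t + d) P - pair (Op d (Θ d)) (wd f) (wd g)) := by
      conv_lhs => rw [h1]
      rw [Finset.sum_sub_distrib]; abel
    rw [h2]
    refine Submodule.add_mem _ (Submodule.sum_mem _ fun k hk => ?_)
      (Submodule.sum_mem _ fun d _ => hΘ d f g hf hg P hP)
    rw [Finset.mem_range] at hk
    exact comp_low F f g k (by omega) P hP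
  · refine ⟨0, fun n _ => ?_⟩
    -- the bracket with a constant vanishes
    have h1 : ∀ d, pair (Op d (Θ d)) (wd f) (wd g) = 0 := by
      intro d
      rw [pair_Op]
      by_cases hf : f = []
      · subst hf
        exact Finset.sum_eq_zero fun r _ => absurd r.2 (by simp)
      · have hg : g = [] := by
          by_contra hg
          exact h0 ⟨List.length_pos_of_ne_nil hf, List.length_pos_of_ne_nil hg⟩
        subst hg
        refine Finset.sum_eq_zero fun r _ => Finset.sum_eq_zero fun s _ => absurd s.2 (by simp)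
    simp only [h1, Finset.sum_const_zero, sub_zero]
    have h2 : Ind F (wd f) (wd g) 0 := by
      intro m _
      rw [br_tr]
      have : trEv m (0 : A N) = 0 := map_zero (trL m)
      rw [this]
      by_cases hf : f = []
      · subst hf
        exact Finset.sum_eq_zero fun r _ => absurd r.2 (by simp)
      · have hg : g = [] := by
          by_contra hg
          exact h0 ⟨List.length_pos_of_ne_nil hf, List.length_pos_of_ne_nil hg⟩
        subst hg
        refine Finset.sum_eq_zero fun r _ => Finset.sum_eq_zero fun s _ => absurd s.2 (by simp)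
    have := ind_unique hP h2
    rwa [sub_zero] at this

lemma pair_add_left (Θ : Fin N → Fin N → Module.End ℂ (A N)) (P P' Q : A N) :
    pair Θ (P + P') Q = pair Θ P Q + pair Θ P' Q := by
  simp only [pair, map_add, add_mul, Finset.sum_add_distrib]

lemma pair_smul_left (Θ : Fin N → Fin N → Module.End ℂ (A N)) (c : ℂ) (P Q : A N) :
    pair Θ (c • P) Q = c • pair Θ P Q := by
  simp only [pair, map_smul, smul_mul_assoc, Finset.smul_sum]

lemma pair_add_right (Θ : Fin N → Fin N → Module.End ℂ (A N)) (P Q Q' : A N) :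
    pair Θ P (Q + Q') = pair Θ P Q + pair Θ P Q' := by
  simp only [pair, map_add, mul_add, Finset.sum_add_distrib]

lemma pair_smul_right (Θ : Fin N → Fin N → Module.End ℂ (A N)) (c : ℂ) (P Q : A N) :
    pair Θ P (c • Q) = c • pair Θ P Q := by
  simp only [pair, map_smul, mul_smul_comm, Finset.smul_sum]

/-- extension from words to all elements: a sequence version -/
lemma extend (F : TraceFam N) (T : ℕ → Fin N → Fin N → Module.End ℂ (A N))
    (hT : ∀ (f g : List (Fin N)) (P : A N), Ind F (wd f) (wd g) P →
      ∃ n₀, ∀ n, n₀ ≤ n → P - ∑ d ∈ Finset.range n, pair (T d) (wd f) (wd g) ∈ comm N)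
    (P₁ P₂ P₃ : A N) (h : Ind F P₁ P₂ P₃) :
    ∃ n₀, ∀ n, n₀ ≤ n → P₃ - ∑ d ∈ Finset.range n, pair (T d) P₁ P₂ ∈ comm N := by
  induction P₁ using ind_wd generalizing P₃ with
  | h1 f =>
    induction P₂ using ind_wd generalizing P₃ with
    | h1 g => exact hT f g P₃ h
    | h2 P Q h1 h2 =>
      obtain ⟨S, hS⟩ := F.closed (wd f) P
      obtain ⟨S', hS'⟩ := F.closed (wd f) Q
      have hS0 : Ind F (wd f) (P + Q) (S + S') := by
        intro m hm
        rw [trEv_add, map_add, hS m hm, hS' m hm, trEv_add]
      obtain ⟨n₁, hn₁⟩ := h1 S hS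
      obtain ⟨n₂, hn₂⟩ := h2 S' hS'
      have hu := ind_unique h hS0
      refine ⟨max n₁ n₂, fun n hn => ?_⟩
      have a1 := hn₁ n ((le_max_left _ _).trans hn)
      have a2 := hn₂ n ((le_max_right _ _).trans hn)
      simp only [pair_add_right, Finset.sum_add_distrib]
      have := Submodule.add_mem _ (Submodule.add_mem _ a1 a2) hu
      convert this using 1; abel
    | h3 c P h1 =>
      obtain ⟨S, hS⟩ := F.closed (wd f) P
      have hS0 : Ind F (wd f) (c • P) (c • S) := by
        intro m hm
        rw [trEv_smul, map_smul, hS m hm, trEv_smul]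
      obtain ⟨n₁, hn₁⟩ := h1 S hS
      have hu := ind_unique h hS0
      refine ⟨n₁, fun n hn => ?_⟩
      have a1 := Submodule.smul_mem _ c (hn₁ n hn)
      simp only [pair_smul_right, ← Finset.smul_sum]
      have := Submodule.add_mem _ a1 hu
      rw [smul_sub] at this
      convert this using 1; abel
  | h2 P Q h1 h2 =>
    obtain ⟨S, hS⟩ := F.closed P P₂
    obtain ⟨S', hS'⟩ := F.closed Q P₂
    have hS0 : Ind F (P + Q) P₂ (S + S') := by
      intro m hm
      rw [trEv_add, map_add, LinearMap.add_apply, hS m hm, hS' m hm, trEv_add]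
    obtain ⟨n₁, hn₁⟩ := h1 S hS
    obtain ⟨n₂, hn₂⟩ := h2 S' hS'
    have hu := ind_unique h hS0
    refine ⟨max n₁ n₂, fun n hn => ?_⟩
    have a1 := hn₁ n ((le_max_left _ _).trans hn)
    have a2 := hn₂ n ((le_max_right _ _).trans hn)
    simp only [pair_add_left, Finset.sum_add_distrib]
    have := Submodule.add_mem _ (Submodule.add_mem _ a1 a2) hu
    convert this using 1; abel
  | h3 c P h1 =>
    obtain ⟨S, hS⟩ := F.closed P P₂
    have hS0 : Ind F (c • P) P₂ (c • S) := by
      intro m hm
      rw [trEv_smul, map_smul, LinearMap.smul_apply, hS m hm, trEv_smul]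
    obtain ⟨n₁, hn₁⟩ := h1 S hS
    have hu := ind_unique h hS0
    refine ⟨n₁, fun n hn => ?_⟩
    have a1 := Submodule.smul_mem _ c (hn₁ n hn)
    simp only [pair_smul_left, ← Finset.smul_sum]
    have := Submodule.add_mem _ a1 hu
    rw [smul_sub] at this
    convert this using 1; abel

/-- The noncommutative polynomials of degree at most `n`. -/
def degLE (N n : ℕ) : Submodule ℂ (A N) :=
  Submodule.span ℂ {P | ∃ w : List (Fin N), w.length ≤ n ∧ P = wd w}

lemma wd_mem_degLE {n : ℕ} (w : List (Fin N)) (h : w.length ≤ n) : wd w ∈ degLE N n :=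
  Submodule.subset_span ⟨w, h, rfl⟩

lemma degLE_mono {n n' : ℕ} (h : n ≤ n') : degLE N n ≤ degLE N n' := by
  rw [degLE, Submodule.span_le]
  rintro _ ⟨w, hw, rfl⟩
  exact wd_mem_degLE w (hw.trans h)

lemma mul_mem_degLE {p q : ℕ} {P Q : A N} (hP : P ∈ degLE N p) (hQ : Q ∈ degLE N q) :
    P * Q ∈ degLE N (p + q) := by
  induction hP using Submodule.span_induction with
  | mem x hx =>
    obtain ⟨w, hw, rfl⟩ := hx
    induction hQ using Submodule.span_induction with
    | mem y hy =>
      obtain ⟨v, hv, rfl⟩ := hy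
      rw [wd_mul]
      exact wd_mem_degLE _ (by rw [List.length_append]; omega)
    | zero => rw [mul_zero]; exact Submodule.zero_mem _
    | add x y _ _ hx hy => rw [mul_add]; exact Submodule.add_mem _ hx hy
    | smul a x _ hx => rw [mul_smul_comm]; exact Submodule.smul_mem _ _ hx
  | zero => rw [zero_mul]; exact Submodule.zero_mem _
  | add x y _ _ hx hy => rw [add_mul]; exact Submodule.add_mem _ hx hy
  | smul a x _ hx => rw [smul_mul_assoc]; exact Submodule.smul_mem _ _ hx

lemma grad_mem_degLE {p : ℕ} {P : A N} (hP : P ∈ degLE N p) (i : Fin N) : grad i P ∈ degLE N p := by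
  induction hP using Submodule.span_induction with
  | mem x hx =>
    obtain ⟨w, hw, rfl⟩ := hx
    rw [grad_wd']
    refine Submodule.sum_mem _ fun r _ => ?_
    have := cut_length w r
    split_ifs
    · exact wd_mem_degLE _ (by omega)
    · exact Submodule.zero_mem _
  | zero => rw [map_zero]; exact Submodule.zero_mem _
  | add x y _ _ hx hy => rw [map_add]; exact Submodule.add_mem _ hx hy
  | smul a x _ hx => rw [map_smul]; exact Submodule.smul_mem _ _ hx

lemma comp_of_degLE {n k : ℕ} {P : A N} (hP : P ∈ degLE N n) (hk : n < k) : comp k P = 0 := by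
  induction hP using Submodule.span_induction with
  | mem x hx =>
    obtain ⟨w, hw, rfl⟩ := hx
    rw [comp_wd, if_neg (by omega)]
  | zero => rw [map_zero]
  | add x y _ _ hx hy => rw [map_add, hx, hy, add_zero]
  | smul a x _ hx => rw [map_smul, hx, smul_zero]

lemma comp_mem_degLE (n : ℕ) (P : A N) : comp n P ∈ degLE N n := by
  induction P using ind_wd with
  | h1 w =>
    rw [comp_wd]; split_ifs with h
    · exact wd_mem_degLE w h.le
    · exact Submodule.zero_mem _
  | h2 P Q h1 h2 => rw [map_add]; exact Submodule.add_mem _ h1 h2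
  | h3 c P h1 => rw [map_smul]; exact Submodule.smul_mem _ _ h1

lemma mulLeft_mem (u : List (Fin N)) : LinearMap.mulLeft ℂ (wd u) ∈ localOps N := by
  induction u with
  | nil =>
    have : LinearMap.mulLeft ℂ (wd [] : A N) = 1 := by
      apply LinearMap.ext; intro P; simp [wd_nil]
    rw [this]; exact Subalgebra.one_mem _
  | cons k u ih =>
    have : LinearMap.mulLeft ℂ (wd (k :: u)) =
        (LinearMap.mulLeft ℂ (wd [k]) : Module.End ℂ (A N)) * LinearMap.mulLeft ℂ (wd u) := by
      apply LinearMap.ext; intro P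
      rw [Module.End.mul_apply, LinearMap.mulLeft_apply, LinearMap.mulLeft_apply,
        LinearMap.mulLeft_apply, ← mul_assoc, wd_mul]
      rfl
    rw [this]
    exact Subalgebra.mul_mem _ (Algebra.subset_adjoin (Or.inl ⟨k, rfl⟩)) ih

lemma mulRight_mem (u : List (Fin N)) : LinearMap.mulRight ℂ (wd u) ∈ localOps N := by
  induction u with
  | nil =>
    have : LinearMap.mulRight ℂ (wd [] : A N) = 1 := by
      apply LinearMap.ext; intro P; simp [wd_nil]
    rw [this]; exact Subalgebra.one_mem _
  | cons k u ih =>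
    have : LinearMap.mulRight ℂ (wd (k :: u)) =
        (LinearMap.mulRight ℂ (wd u) : Module.End ℂ (A N)) * LinearMap.mulRight ℂ (wd [k]) := by
      apply LinearMap.ext; intro P
      rw [Module.End.mul_apply, LinearMap.mulRight_apply, LinearMap.mulRight_apply,
        LinearMap.mulRight_apply, mul_assoc, wd_mul]
      rfl
    rw [this]
    exact Subalgebra.mul_mem _ ih (Algebra.subset_adjoin (Or.inr ⟨k, rfl⟩))

lemma Op_mem (d : ℕ) (c : Co N d) (i j : Fin N) : Op d c i j ∈ localOps N := by
  refine Subalgebra.sum_mem _ fun l _ => Subalgebra.sum_mem _ fun v _ => ?_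
  refine Subalgebra.smul_mem _ ?_ _
  exact Subalgebra.mul_mem _ (mulLeft_mem _) (mulRight_mem _)

lemma Op_hom (d : ℕ) (c : Co N d) (i j : Fin N) (n : ℕ) (P : A N) :
    Op d c i j (comp n P) = comp (n + d) (Op d c i j P) := by
  induction P using ind_wd with
  | h1 w =>
    have h1 : ∀ (l : Fin (d + 1)) (v : List.Vector (Fin N) d),
        comp (n + d) (wd (v.toList.take l ++ (w ++ v.toList.drop l))) =
          if w.length = n then wd (v.toList.take l ++ (w ++ v.toList.drop l)) else 0 := by
      intro l v
      rw [comp_wd]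
      have hl := l.2
      have : (v.toList.take l ++ (w ++ v.toList.drop l)).length = w.length + d := by
        simp only [List.length_append, List.length_take, List.length_drop, List.Vector.toList_length]
        omega
      rw [this]
      simp
    rw [comp_wd, Op_apply (P := wd w)]
    simp only [map_sum, map_smul, wd_mul, h1]
    by_cases h : w.length = n
    · simp only [h, if_true]
      rw [Op_apply]; simp only [wd_mul]
    · simp only [h, if_false, map_zero, smul_zero, Finset.sum_const_zero]
  | h2 P Q h1 h2 => rw [map_add, map_add, map_add, map_add, h1, h2]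
  | h3 c P h1 => rw [map_smul, map_smul, map_smul, map_smul, h1]

lemma local_deg (T : Module.End ℂ (A N)) (hT : T ∈ localOps N) :
    ∃ D, ∀ n P, P ∈ degLE N n → T P ∈ degLE N (n + D) := by
  induction hT using Algebra.adjoin_induction with
  | mem T hT =>
    refine ⟨1, fun n P hP => ?_⟩
    rcases hT with ⟨i, rfl⟩ | ⟨i, rfl⟩
    · rw [LinearMap.mulLeft_apply, add_comm]
      exact mul_mem_degLE (wd_mem_degLE _ (by simp)) hP
    · rw [LinearMap.mulRight_apply]
      exact mul_mem_degLE hP (wd_mem_degLE _ (by simp))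
  | algebraMap c =>
    refine ⟨0, fun n P hP => ?_⟩
    rw [Module.algebraMap_end_apply]
    exact Submodule.smul_mem _ _ hP
  | add S T _ _ hS hT =>
    obtain ⟨D₁, h1⟩ := hS
    obtain ⟨D₂, h2⟩ := hT
    refine ⟨D₁ + D₂, fun n P hP => ?_⟩
    rw [LinearMap.add_apply]
    exact Submodule.add_mem _ (degLE_mono (by omega) (h1 n P hP)) (degLE_mono (by omega) (h2 n P hP))
  | mul S T _ _ hS hT =>
    obtain ⟨D₁, h1⟩ := hS
    obtain ⟨D₂, h2⟩ := hT
    refine ⟨D₂ + D₁, fun n P hP => ?_⟩
    rw [Module.End.mul_apply]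
    have := h1 _ _ (h2 n P hP)
    rwa [add_assoc] at this

/-- The induced bracket of the classes of `P₁`, `P₂` is the class of
`∑_{i,j} grad_i P₁ · Θ_{ij}(grad_j P₂)`, for all `P₁`, `P₂`. -/
def Represents (F : TraceFam N) (Θ : Fin N → Fin N → Module.End ℂ (A N)) : Prop :=
  ∀ P₁ P₂ P₃ : A N, Ind F P₁ P₂ P₃ →
    P₃ - ∑ i : Fin N, ∑ j : Fin N, grad i P₁ * Θ i j (grad j P₂) ∈ comm N

/-- The conclusion of the question: the induced bracket is given by a matrix `Θ` of local
operators. -/
def IsLocal (F : TraceFam N) : Prop :=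
  ∃ Θ : Fin N → Fin N → Module.End ℂ (A N), (∀ i j, Θ i j ∈ localOps N) ∧ Represents F Θ

/-- The induced bracket raises the degree by a bounded amount: the bracket of classes of degree
at most `p` and `q` is represented in degree at most `p + q + D`. -/
def BoundedShift (F : TraceFam N) : Prop :=
  ∃ D : ℕ, ∀ (p q : ℕ) (P₁ P₂ P₃ : A N), P₁ ∈ degLE N p → P₂ ∈ degLE N q → Ind F P₁ P₂ P₃ →
    ∃ Q ∈ degLE N (p + q + D), P₃ - Q ∈ comm N

theorem formal_operator (F : TraceFam N) :
    ∃ Θ : ℕ → Fin N → Fin N → Module.End ℂ (A N),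
      (∀ d i j, Θ d i j ∈ localOps N) ∧
      (∀ d i j n P, Θ d i j (comp n P) = comp (n + d) (Θ d i j P)) ∧
      ∀ P₁ P₂ P₃ : A N, Ind F P₁ P₂ P₃ → ∃ n₀, ∀ n, n₀ ≤ n →
        P₃ - ∑ d ∈ Finset.range n, ∑ i : Fin N, ∑ j : Fin N,
          grad i P₁ * Θ d i j (grad j P₂) ∈ comm N := by
  choose c hc using exists_rep F
  refine ⟨fun d => Op d (c d), fun d i j => Op_mem d _ i j, fun d i j n P => Op_hom d _ i j n P, ?_⟩
  intro P₁ P₂ P₃ h
  exact extend F (fun d => Op d (c d)) (fun f g P hP => words_sum F c hc f g P hP) P₁ P₂ P₃ h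

theorem local_of_boundedShift (F : TraceFam N) (h : BoundedShift F) : IsLocal F := by
  obtain ⟨D, hD⟩ := h
  choose c hc using exists_rep F
  have hvan : ∀ (f g : List (Fin N)) (d : ℕ), D + 3 ≤ d →
      pair (Op d (c d)) (wd f) (wd g) ∈ comm N := by
    intro f g d hd
    by_cases h0 : 1 ≤ f.length ∧ 1 ≤ g.length
    · obtain ⟨hf, hg⟩ := h0
      obtain ⟨P, hP⟩ := F.closed (wd f) (wd g)
      obtain ⟨Q, hQ, hPQ⟩ := hD f.length g.length (wd f) (wd g) P (wd_mem_degLE f le_rfl)
        (wd_mem_degLE g le_rfl) hP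
      have h1 := hc d f g hf hg P hP
      have h2 := comp_mem_comm (f.length + g.length - 2 + d) _ hPQ
      rw [map_sub, comp_of_degLE hQ (by omega), sub_zero] at h2
      have := Submodule.sub_mem _ h2 h1
      rwa [sub_sub_cancel] at this
    · have : pair (Op d (c d)) (wd f) (wd g) = 0 := by
        rw [pair_Op]
        by_cases hf : f = []
        · subst hf
          exact Finset.sum_eq_zero fun r _ => absurd r.2 (by simp)
        · have hg : g = [] := by
            by_contra hg
            exact h0 ⟨List.length_pos_of_ne_nil hf, List.length_pos_of_ne_nil hg⟩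
          subst hg
          refine Finset.sum_eq_zero fun r _ => Finset.sum_eq_zero fun s _ => absurd s.2 (by simp)
      rw [this]; exact Submodule.zero_mem _
  refine ⟨fun i j => ∑ d ∈ Finset.range (D + 3), Op d (c d) i j,
    fun i j => Subalgebra.sum_mem _ fun d _ => Op_mem d _ i j, ?_⟩
  intro P₁ P₂ P₃ hP
  have hext := extend F (fun d => if d < D + 3 then Op d (c d) else 0) (by
    intro f g P hP
    obtain ⟨n₀, hn₀⟩ := words_sum F c hc f g P hP
    refine ⟨n₀ + D + 3, fun n hn => ?_⟩
    have h1 := hn₀ n (by omega)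
    have h2 : ∑ d ∈ Finset.range n, pair (Op d (c d)) (wd f) (wd g) -
        ∑ d ∈ Finset.range n, pair (if d < D + 3 then Op d (c d) else 0) (wd f) (wd g) ∈ comm N := by
      rw [← Finset.sum_sub_distrib]
      refine Submodule.sum_mem _ fun d _ => ?_
      by_cases hd : d < D + 3
      · rw [if_pos hd, sub_self]; exact Submodule.zero_mem _
      · rw [if_neg hd]
        have : pair (0 : Fin N → Fin N → Module.End ℂ (A N)) (wd f) (wd g) = 0 := by
          simp [pair]
        rw [this, sub_zero]
        exact hvan f g d (by omega)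
    have := Submodule.add_mem _ h1 h2
    rwa [sub_add_sub_cancel] at this) P₁ P₂ P₃ hP
  obtain ⟨n₀, hn₀⟩ := hext
  have h1 := hn₀ (n₀ + (D + 3)) (by omega)
  have h2 : ∑ d ∈ Finset.range (n₀ + (D + 3)),
      pair (if d < D + 3 then Op d (c d) else 0) P₁ P₂ =
      ∑ i : Fin N, ∑ j : Fin N,
        grad i P₁ * (∑ d ∈ Finset.range (D + 3), Op d (c d) i j) (grad j P₂) := by
    rw [← Finset.sum_subset (s₁ := Finset.range (D + 3))]
    · have : ∀ d ∈ Finset.range (D + 3), pair (if d < D + 3 then Op d (c d) else 0) P₁ P₂ =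
          ∑ i : Fin N, ∑ j : Fin N, grad i P₁ * Op d (c d) i j (grad j P₂) := by
        intro d hd
        rw [if_pos (Finset.mem_range.1 hd)]; rfl
      rw [Finset.sum_congr rfl this, Finset.sum_comm]
      refine Finset.sum_congr rfl fun i _ => ?_
      rw [Finset.sum_comm]
      refine Finset.sum_congr rfl fun j _ => ?_
      rw [LinearMap.sum_apply, Finset.mul_sum]
    · intro x hx; rw [Finset.mem_range] at *; omega
    · intro d _ hd
      rw [Finset.mem_range] at hd
      rw [if_neg hd]
      simp [pair]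
  rwa [h2] at h1

theorem boundedShift_of_local (F : TraceFam N) (h : IsLocal F) : BoundedShift F := by
  obtain ⟨Θ, hΘ, hrep⟩ := h
  choose D hD using fun i j => local_deg (Θ i j) (hΘ i j)
  refine ⟨∑ i, ∑ j, D i j, fun p q P₁ P₂ P₃ h1 h2 h3 => ?_⟩
  refine ⟨_, ?_, hrep P₁ P₂ P₃ h3⟩
  refine Submodule.sum_mem _ fun i _ => Submodule.sum_mem _ fun j _ => ?_
  have h4 := mul_mem_degLE (grad_mem_degLE h1 i) (hD i j q _ (grad_mem_degLE h2 j))
  refine degLE_mono ?_ h4
  have h5 : D i j ≤ ∑ j, D i j := Finset.single_le_sum (fun _ _ => Nat.zero_le _) (Finset.mem_univ j)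
  have h6 : ∑ j, D i j ≤ ∑ i, ∑ j, D i j :=
    Finset.single_le_sum (f := fun i => ∑ j, D i j) (fun _ _ => Nat.zero_le _) (Finset.mem_univ i)
  omega

/-- For infinitely many sizes `m` the brackets of the matrix entries have degree at most `D`. -/
def BoundedDegree (F : TraceFam N) : Prop :=
  ∃ D : ℕ, ∀ M : ℕ, ∃ m, M ≤ m ∧ ∀ x y : Fin N × Fin m × Fin m,
    ((F.B m).br (X x) (X y)).totalDegree ≤ D

lemma hc_br_zero (B : PBr (R N m)) (D : ℕ)
    (hB : ∀ x y : Fin N × Fin m × Fin m, (B.br (X x) (X y)).totalDegree ≤ D) (p q k : ℕ)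
    (hk : p + q + D < k) (P₁ P₂ : A N) (h1 : P₁ ∈ degLE N p) (h2 : P₂ ∈ degLE N q) :
    hc k (B.br (trEv m P₁) (trEv m P₂)) = 0 := by
  induction h1 using Submodule.span_induction with
  | mem x hx =>
    obtain ⟨f, hf, rfl⟩ := hx
    induction h2 using Submodule.span_induction with
    | mem y hy =>
      obtain ⟨g, hg, rfl⟩ := hy
      rw [hc, br_tr]
      apply homogeneousComponent_eq_zero
      refine lt_of_le_of_lt ?_ hk
      refine totalDegree_finsetSum_le fun r _ => totalDegree_finsetSum_le fun s _ =>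
        totalDegree_finsetSum_le fun b _ => totalDegree_finsetSum_le fun a _ =>
        totalDegree_finsetSum_le fun d _ => totalDegree_finsetSum_le fun c _ => ?_
      refine (totalDegree_mul _ _).trans ?_
      have e1 := (ev_hom (m := m) (cut f r) b a).totalDegree_le
      have e2 := (ev_hom (m := m) (cut g s) d c).totalDegree_le
      have e3 := totalDegree_mul (ev m (wd (cut g s)) d c)
        (B.br (X (f.get r, a, b)) (X (g.get s, c, d)))
      have e4 := hB (f.get r, a, b) (g.get s, c, d)
      have hr := cut_length f r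
      have hs := cut_length g s
      omega
    | zero => rw [show trEv m (0 : A N) = 0 from map_zero (trL m), map_zero, map_zero]
    | add x y _ _ hx hy => rw [trEv_add, map_add, map_add, hx, hy, add_zero]
    | smul a x _ hx => rw [trEv_smul, map_smul, map_smul, hx, smul_zero]
  | zero => rw [show trEv m (0 : A N) = 0 from map_zero (trL m), map_zero, LinearMap.zero_apply, map_zero]
  | add x y _ _ hx hy => rw [trEv_add, map_add, LinearMap.add_apply, map_add, hx, hy, add_zero]
  | smul a x _ hx => rw [trEv_smul, map_smul, LinearMap.smul_apply, map_smul, hx, smul_zero]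

theorem boundedShift_of_boundedDegree (F : TraceFam N) (h : BoundedDegree F) : BoundedShift F := by
  obtain ⟨D, hD⟩ := h
  refine ⟨D, fun p q P₁ P₂ P₃ h1 h2 h3 => ?_⟩
  obtain ⟨n₀, hn₀⟩ := eq_sum_comp P₃
  refine ⟨∑ k ∈ Finset.range (p + q + D + 1), comp k P₃, ?_, ?_⟩
  · refine Submodule.sum_mem _ fun k hk => degLE_mono ?_ (comp_mem_degLE k P₃)
    rw [Finset.mem_range] at hk; omega
  · have h4 := hn₀ (p + q + D + 1 + n₀) (by omega)
    rw [Finset.sum_range_add] at h4
    have h5 : P₃ - ∑ k ∈ Finset.range (p + q + D + 1), comp k P₃ =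
        ∑ x ∈ Finset.range n₀, comp (p + q + D + 1 + x) P₃ := by
      rw [sub_eq_iff_eq_add']
      exact h4
    rw [h5]
    refine Submodule.sum_mem _ fun x _ => ?_
    obtain ⟨m, hm, hB⟩ := hD (p + q + D + 1 + x)
    have h6 := hc_br_zero (F.B m) D hB p q (p + q + D + 1 + x) (by omega) P₁ P₂ h1 h2
    rw [h3 m (by omega), hc_trEv] at h6
    have := comp_mem_comm_of_trEv (m := m) (p + q + D + 1 + x) (by omega) hm _ h6
    rwa [comp_comp] at this

/-- Sanity check: `grad` is the gradient, that is, every derivation `D` of the functions on tuples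
of matrices satisfies `D (tr P) = ∑_i tr (grad_i P · D x_i)`. -/
theorem grad_spec (D : R N m →ₗ[ℂ] R N m) (hD : ∀ f g, D (f * g) = D f * g + f * D g) (P : A N) :
    D (trEv m P) = ∑ i : Fin N, (ev m (grad i P) * mD D (gen m i)).trace := by
  induction P using ind_wd with
  | h1 w =>
    rw [D_trEv D hD]
    have h1 : ∀ i : Fin N, (ev m (grad i (wd w)) * mD D (gen m i)).trace =
        ∑ r : Fin w.length, if w.get r = i then
          (ev m (wd (cut w r)) * mD D (gen m (w.get r))).trace else 0 := by
      intro i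
      rw [grad_wd', map_sum, Finset.sum_mul, Matrix.trace_sum]
      refine Finset.sum_congr rfl fun r _ => ?_
      split_ifs with h
      · rw [h]
      · simp
    simp only [h1]
    rw [Finset.sum_comm]
    refine Finset.sum_congr rfl fun r _ => ?_
    rw [Finset.sum_ite_eq Finset.univ (w.get r), if_pos (Finset.mem_univ _)]
    rfl
  | h2 P Q h1 h2 =>
    rw [trEv_add, map_add, h1, h2, ← Finset.sum_add_distrib]
    refine Finset.sum_congr rfl fun i _ => ?_
    rw [map_add, map_add, add_mul, Matrix.trace_add]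
  | h3 c P h1 =>
    rw [trEv_smul, map_smul, h1, Finset.smul_sum]
    refine Finset.sum_congr rfl fun i _ => ?_
    rw [map_smul, map_smul, smul_mul_assoc, Matrix.trace_smul]

/-- Sanity check: there are trace Poisson brackets (here the zero one). -/
theorem nonempty_traceFam : Nonempty (TraceFam N) :=
  ⟨{ B := fun _ => { br := 0, skew := by simp, leibniz := by simp, jacobi := by simp }
     conj_inv := by simp
     closed := fun _ _ => ⟨0, fun _ _ => by simp [trEv]⟩ }⟩

/-- Every trace Poisson bracket is given by a formal local operator `∑_d Θ_d`, with `Θ_d` a matrix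
of local operators raising degrees by exactly `d`; it is given by a matrix of local operators if
and only if the induced bracket raises degrees by a bounded amount; and this is the case whenever,
for infinitely many sizes `m`, the brackets of the matrix entries have bounded degree. -/
theorem result (N : ℕ) (F : TraceFam N) :
    (∃ Θ : ℕ → Fin N → Fin N → Module.End ℂ (A N),
      (∀ d i j, Θ d i j ∈ localOps N) ∧
      (∀ d i j n P, Θ d i j (comp n P) = comp (n + d) (Θ d i j P)) ∧
      ∀ P₁ P₂ P₃ : A N, Ind F P₁ P₂ P₃ → ∃ n₀, ∀ n, n₀ ≤ n →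
        P₃ - ∑ d ∈ Finset.range n, ∑ i : Fin N, ∑ j : Fin N,
          grad i P₁ * Θ d i j (grad j P₂) ∈ comm N) ∧
    (IsLocal F ↔ BoundedShift F) ∧
    (BoundedDegree F → IsLocal F) :=
  ⟨formal_operator F, ⟨boundedShift_of_local F, local_of_boundedShift F⟩,
    fun h => local_of_boundedShift F (boundedShift_of_boundedDegree F h)⟩

end

end Pool.Agent.Results.MP_f76180_mp.LocalCriterion
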